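import Pool.Agent.R640.CG.Main2
import Pool.Agent.V5helper75.BK.Geo

/-!
# Project LR: right-angled Artin groups in right-angled Coxeter groups of octahedralizations
-/

set_option autoImplicit false
set_option linter.unusedSectionVars false

namespace Pool.Agent.V5helper74.LR

open Pool.Agent.W907.SG Pool.Agent.W461.SGN Pool.Agent.V5helper75.VO Pool.Agent.V5helper75.BK Pool.R640.CG

section

variable {V : Type} (G : SimpleGraph V)

/-- doubled words -/
def dbl : List (V × Bool) → List (V × Bool)
  | [] => []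
  | x :: u => x :: x :: dbl u

theorem pre_dbl {u : List (V × Bool)} {b : V × Bool} (h : Pre G (dbl u) b) : Pre G u b := by
  induction u with
  | nil => exact h
  | cons x u ih =>
    rcases h with h | ⟨h1, h | ⟨-, h⟩⟩
    · exact Or.inl h
    · exact Or.inl h
    · exact Or.inr ⟨h1, ih h⟩

theorem can_dbl {u : List (V × Bool)} (h : Can G (dbl u)) : Can G u := by
  induction u with
  | nil => exact h
  | cons x u ih =>
    rcases h with (h | h) | h
    · exact Or.inl (ih h)
    · exact Or.inr (pre_dbl G h)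
    · rcases h with h | ⟨h, -⟩
      · exfalso
        have h1 : x.2 = !x.2 := congrArg Prod.snd h
        cases h2 : x.2 <;> rw [h2] at h1 <;> exact Bool.noConfusion h1
      · exact absurd h (G.loopless.irrefl _)

theorem dbl_length (u : List (V × Bool)) : (dbl u).length = 2 * u.length := by
  induction u with
  | nil => rfl
  | cons x u ih =>
    show (dbl u).length + 1 + 1 = 2 * (u.length + 1)
    omega

/-- the homomorphism which squares the generators -/
def sq : Raag G →* Raag G :=
  PresentedGroup.toGroup (f := fun v => gn G v * gn G v) (by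
    rintro r ⟨a, b, h, rfl⟩
    simp only [map_mul, map_inv, FreeGroup.lift_apply_of]
    rw [mul_inv_eq_one, mul_inv_eq_iff_eq_mul]
    have h1 : Commute (gn G a) (gn G b) := gn_comm G h
    exact (h1.mul_left h1).mul_right (h1.mul_left h1))

theorem sq_gn (v : V) : sq G (gn G v) = gn G v * gn G v := PresentedGroup.toGroup.of _

theorem sq_ev (u : List (V × Bool)) : sq G (ev G u) = ev G (dbl u) := by
  induction u with
  | nil => exact map_one _
  | cons x u ih =>
    show sq G (ev G (x :: u)) = ev G (x :: x :: dbl u)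
    rw [ev_cons, ev_cons, ev_cons, map_mul, ih, ← mul_assoc]
    congr 1
    unfold gl
    split_ifs
    · exact sq_gn G _
    · rw [map_inv, sq_gn, mul_inv_rev]

theorem exists_word (g : Raag G) : ∃ u, ev G u = g := by
  have h : g ∈ (⊤ : Subgroup (Raag G)) := trivial
  have h1 : Subgroup.closure (Set.range (gn G)) = ⊤ := PresentedGroup.closure_range_of _
  rw [← h1] at h
  induction h using Subgroup.closure_induction with
  | mem x hx =>
    obtain ⟨v, rfl⟩ := hx
    exact ⟨[(v, true)], by simp [gl]⟩
  | one => exact ⟨[], rfl⟩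
  | mul x y _ _ hx hy =>
    obtain ⟨u1, e1⟩ := hx
    obtain ⟨u2, e2⟩ := hy
    exact ⟨u1 ++ u2, by rw [ev_append, e1, e2]⟩
  | inv x _ hx =>
    obtain ⟨u1, e1⟩ := hx
    exact ⟨(u1.map iv).reverse, by rw [ev_inv, e1]⟩

theorem sq_inj : Function.Injective (sq G) := by
  classical
  rw [injective_iff_map_eq_one]
  intro g hg
  have h0 : ∃ n, ∃ u, ev G u = g ∧ u.length = n := by
    obtain ⟨u, hu⟩ := exists_word G g
    exact ⟨u.length, u, hu, rfl⟩
  obtain ⟨u, hu, hlen⟩ := Nat.find_spec h0
  have hcan : ¬ Can G u := by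
    intro h1
    obtain ⟨v, hv, he⟩ := Can_short' G h1
    have h2 := Nat.find_min' h0 ⟨v, he.symm.trans hu, rfl⟩
    omega
  have h1 : ¬ Can G (dbl u) := fun h => hcan (can_dbl G h)
  have h2 := geodesic G (u := dbl u) (u' := []) h1 (by rw [← sq_ev, hu, hg]; rfl)
  rw [dbl_length] at h2
  have h3 : u = [] := by
    apply List.eq_nil_of_length_eq_zero
    have : ([] : List (V × Bool)).length = 0 := rfl
    omega
  rw [← hu, h3]
  rfl

open Classical in
/-- the automorphism which inverts one generator -/
noncomputable def rv (v : V) : Raag G →* Raag G :=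
  PresentedGroup.toGroup (f := fun u => if u = v then (gn G u)⁻¹ else gn G u) (by
    rintro r ⟨a, b, h, rfl⟩
    simp only [map_mul, map_inv, FreeGroup.lift_apply_of]
    rw [mul_inv_eq_one, mul_inv_eq_iff_eq_mul]
    have h1 : Commute (gn G a) (gn G b) := gn_comm G h
    split_ifs
    · exact h1.inv_inv
    · exact h1.inv_left
    · exact h1.inv_right
    · exact h1)

theorem rv_self (v : V) : rv G v (gn G v) = (gn G v)⁻¹ := by
  have h : rv G v (gn G v) = _ := PresentedGroup.toGroup.of _
  rw [h, if_pos rfl]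

theorem rv_ne {v u : V} (h : u ≠ v) : rv G v (gn G u) = gn G u := by
  have h1 : rv G v (gn G u) = _ := PresentedGroup.toGroup.of _
  rw [h1, if_neg h]

theorem hom_ext_raag {Γ : Type} [Group Γ] {a b : Raag G →* Γ} (h : ∀ v, a (gn G v) = b (gn G v)) (x : Raag G) :
    a x = b x := by
  have h1 : a = b := PresentedGroup.ext h
  rw [h1]

theorem rv_rv (v : V) (x : Raag G) : rv G v (rv G v x) = x := by
  refine hom_ext_raag G (a := (rv G v).comp (rv G v)) (b := MonoidHom.id _) (fun u => ?_) x
  rw [MonoidHom.comp_apply, MonoidHom.id_apply]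
  by_cases h : u = v
  · subst h
    rw [rv_self, map_inv, rv_self, inv_inv]
  · rw [rv_ne G h, rv_ne G h]

theorem rv_comm (v w : V) (x : Raag G) : rv G v (rv G w x) = rv G w (rv G v x) := by
  refine hom_ext_raag G (a := (rv G v).comp (rv G w)) (b := (rv G w).comp (rv G v)) (fun u => ?_) x
  rw [MonoidHom.comp_apply, MonoidHom.comp_apply]
  by_cases h : u = v
  · subst h
    by_cases h' : u = w
    · subst h'; rfl
    · rw [rv_ne G h', rv_self, map_inv, rv_ne G h']
  · by_cases h' : u = w
    · subst h'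
      rw [rv_self, rv_ne G h, rv_self, map_inv, rv_ne G h]
    · rw [rv_ne G h, rv_ne G h', rv_ne G h]

/-- the first reflection -/
noncomputable def ra' (v : V) : Equiv.Perm (Raag G) := ⟨rv G v, rv G v, rv_rv G v, rv_rv G v⟩

/-- the second reflection -/
noncomputable def rb' (v : V) : Equiv.Perm (Raag G) :=
  ⟨fun x => (gn G v)⁻¹ * rv G v x, fun x => (gn G v)⁻¹ * rv G v x,
    fun x => by
      show (gn G v)⁻¹ * rv G v ((gn G v)⁻¹ * rv G v x) = x
      rw [map_mul, map_inv, rv_self, rv_rv, inv_inv, inv_mul_cancel_left],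
    fun x => by
      show (gn G v)⁻¹ * rv G v ((gn G v)⁻¹ * rv G v x) = x
      rw [map_mul, map_inv, rv_self, rv_rv, inv_inv, inv_mul_cancel_left]⟩

/-- the homomorphism to the Coxeter group -/
noncomputable def em : Raag G →* W (oct G) :=
  PresentedGroup.toGroup (f := fun v => gen (oct G) (toLex (v, true)) * gen (oct G) (toLex (v, false))) (by
    rintro r ⟨a, b, h, rfl⟩
    simp only [map_mul, map_inv, FreeGroup.lift_apply_of]
    rw [mul_inv_eq_one, mul_inv_eq_iff_eq_mul]
    have h1 : ∀ δ ε, Commute (gen (oct G) (toLex (a, δ))) (gen (oct G) (toLex (b, ε))) := fun δ ε =>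
      gen_comm (K := oct G) (show G.Adj a b from h)
    exact ((h1 _ _).mul_right (h1 _ _)).mul_left ((h1 _ _).mul_right (h1 _ _)))

theorem em_gn (v : V) : em G (gn G v) = gen (oct G) (toLex (v, true)) * gen (oct G) (toLex (v, false)) :=
  PresentedGroup.toGroup.of _

theorem em_inj : Function.Injective (em G) := by
  obtain ⟨ρ, hρ⟩ := exists_hom (K := oct G) (Γ := Equiv.Perm (Raag G))
    (fun p => if (ofLex p).2 then ra' G (ofLex p).1 else rb' G (ofLex p).1) (by
    intro p
    apply Equiv.ext
    intro x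
    split_ifs
    · exact rv_rv G _ x
    · show (gn G _)⁻¹ * rv G _ ((gn G _)⁻¹ * rv G _ x) = x
      rw [map_mul, map_inv, rv_self, rv_rv, inv_inv, inv_mul_cancel_left]) (by
    intro p q hpq
    have hadj : G.Adj (ofLex p).1 (ofLex q).1 := hpq
    have hne := G.ne_of_adj hadj
    apply Equiv.ext
    intro x
    have hc := gn_comm G hadj
    have hc' : Commute (gn G (ofLex p).1) (gn G (ofLex q).1) := hc
    split_ifs
    · exact rv_comm G _ _ x
    · show rv G _ ((gn G _)⁻¹ * rv G _ x) = (gn G _)⁻¹ * rv G _ (rv G _ x)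
      rw [map_mul, map_inv, rv_ne G hne.symm, rv_comm]
    · show (gn G _)⁻¹ * rv G _ (rv G _ x) = rv G _ ((gn G _)⁻¹ * rv G _ x)
      rw [map_mul, map_inv, rv_ne G hne, rv_comm]
    · show (gn G _)⁻¹ * rv G _ ((gn G _)⁻¹ * rv G _ x) = (gn G _)⁻¹ * rv G _ ((gn G _)⁻¹ * rv G _ x)
      rw [map_mul, map_inv, rv_ne G hne.symm, map_mul, map_inv, rv_ne G hne, rv_comm, ← mul_assoc, ← mul_assoc,
        hc'.inv_inv.eq])
  have h1 : ∀ x y : Raag G, ρ (em G x) y = x * y := by
    intro x y
    have h2 := hom_ext_raag G (a := ρ.comp (em G)) (b := MulAction.toPermHom (Raag G) (Raag G)) (fun v => by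
      rw [MonoidHom.comp_apply, em_gn, map_mul, hρ, hρ]
      apply Equiv.ext
      intro z
      show rv G v ((gn G v)⁻¹ * rv G v z) = gn G v * z
      rw [map_mul, map_inv, rv_self, rv_rv, inv_inv]) x
    rw [MonoidHom.comp_apply] at h2
    rw [h2]
    rfl
  intro x x' h
  have h2 := h1 x 1
  rw [h, h1 x' 1, mul_one, mul_one] at h2
  exact h2.symm

/-- **Right-angled Artin groups** embed in the kernel of `W (oct G) → (ℤ/2)^..`, generators go to `(s_v t_v)²`. -/
theorem exists_raag : ∃ f : Raag G →* W (oct G), Function.Injective f ∧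
    (∀ v, f (gn G v) = ((cox (oct G)).simple (toLex (v, true)) * (cox (oct G)).simple (toLex (v, false))) ^ 2) ∧
    f.range ≤ (th (oct G)).ker := by
  refine ⟨(em G).comp (sq G), (em_inj G).comp (sq_inj G), fun v => ?_, ?_⟩
  · rw [MonoidHom.comp_apply, sq_gn, map_mul, em_gn, pow_two]
  · rintro _ ⟨x, rfl⟩
    rw [MonoidHom.mem_ker]
    refine hom_ext_raag G (a := (th (oct G)).comp ((em G).comp (sq G))) (b := 1) (fun v => ?_) x
    rw [MonoidHom.comp_apply, MonoidHom.comp_apply, sq_gn, map_mul, map_mul, MonoidHom.one_apply]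
    funext u
    rw [Pi.mul_apply, Pi.one_apply]
    exact Int.units_mul_self _

end

end Pool.Agent.V5helper74.LR
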