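import Pool.Agent.W907.SG.Defs

/-!
# Project LR: families of subspaces over the flag complex of a graph

`N v` is a family of subspaces of `M`; the `i`-chains are the families `c T`, `T` a clique with `i` elements, with `c T`
in the intersection of the `N v`, `v ∈ T`.
-/

set_option autoImplicit false
set_option linter.unusedSectionVars false

namespace Pool.Agent.V5helper74.LR

open Finset Pool.Agent.W907.SG

variable {V : Type} [Fintype V] [LinearOrder V] {G : SimpleGraph V}

section

variable {M : Type} [AddCommGroup M] [Module ℝ M]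

/-- the intersection of the subspaces -/
def cap (N : V → Submodule ℝ M) (T : Finset V) : Submodule ℝ M := ⨅ v ∈ T, N v

/-- the sum of the subspaces -/
def cup (N : V → Submodule ℝ M) (T : Finset V) : Submodule ℝ M := ⨆ v ∈ T, N v

theorem mem_cap {N : V → Submodule ℝ M} {T : Finset V} {m : M} : m ∈ cap N T ↔ ∀ v ∈ T, m ∈ N v := by
  simp [cap, Submodule.mem_iInf]

theorem cup_empty (N : V → Submodule ℝ M) : cup N ∅ = ⊥ := by simp [cup]

theorem cup_insert (N : V → Submodule ℝ M) (v : V) (T : Finset V) : cup N (insert v T) = N v ⊔ cup N T := by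
  exact Finset.iSup_insert v T N

theorem cup_le {N : V → Submodule ℝ M} {T : Finset V} {P : Submodule ℝ M} (h : ∀ v ∈ T, N v ≤ P) : cup N T ≤ P :=
  iSup₂_le h

theorem le_cup {N : V → Submodule ℝ M} {T : Finset V} {v : V} (h : v ∈ T) : N v ≤ cup N T :=
  le_iSup₂_of_le v h le_rfl

variable (G)

/-- chains with coefficients in the family `N` -/
structure Ch (C : Finset V) (N : V → Submodule ℝ M) (i : ℕ) (c : Finset V → M) : Prop where
  supp : ∀ T, c T ≠ 0 → G.IsClique (T : Set V) ∧ T ⊆ C ∧ T.card = i
  mem : ∀ T, ∀ v ∈ T, c T ∈ N v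

/-- exactness in the degree `i` -/
def Ex (C : Finset V) (N : V → Submodule ℝ M) (i : ℕ) : Prop :=
  ∀ c, Ch G C N i c → bd ℝ c = 0 → ∃ e, Ch G C N (i + 1) e ∧ bd ℝ e = c

/-- the family is distributive on the cliques -/
def Dis (C : Finset V) (N : V → Submodule ℝ M) : Prop :=
  ∀ σ ρ : Finset V, Disjoint σ ρ → G.IsClique ((σ ∪ ρ : Finset V) : Set V) → σ ∪ ρ ⊆ C →
    ∀ m : M, (∀ v ∈ σ, m ∈ N v ⊔ cup N ρ) → m ∈ cap N σ ⊔ cup N ρ

variable {G}

/-- supported off `u` -/
def Off (u : V) (c : Finset V → M) : Prop := ∀ T, u ∈ T → c T = 0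

/-- the cone with the vertex `u` -/
def cone (u : V) (g : Finset V → M) (T : Finset V) : M := if u ∈ T then sg u (T.erase u) • g (T.erase u) else 0

/-- the link component -/
def lk (u : V) (c : Finset V → M) (T : Finset V) : M := if u ∈ T then 0 else sg u T • c (insert u T)

/-- the component off `u` -/
def off (u : V) (c : Finset V → M) (T : Finset V) : M := if u ∈ T then 0 else c T

theorem off_off (u : V) (c : Finset V → M) : Off u (off u c) := fun _ h => if_pos h

theorem off_lk (u : V) (c : Finset V → M) : Off u (lk u c) := fun _ h => if_pos h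

theorem off_bd {u : V} {c : Finset V → M} (h : Off u c) : Off u (bd ℝ c) := by
  intro T hT
  rw [bd_apply]
  exact sum_eq_zero fun v _ => by rw [h _ (mem_insert_of_mem hT), smul_zero]

theorem decomp (u : V) (c : Finset V → M) : c = off u c + cone u (lk u c) := by
  funext T
  rw [Pi.add_apply]
  unfold off cone lk
  by_cases h : u ∈ T
  · rw [if_pos h, if_pos h, if_neg (notMem_erase u T), zero_add, smul_smul, sg_mul_self, one_smul,
      insert_erase h]
  · rw [if_neg h, if_neg h, add_zero]

theorem bd_cone {u : V} {g : Finset V → M} (h : Off u g) : bd ℝ (cone u g) = g - cone u (bd ℝ g) := by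
  funext T
  rw [Pi.sub_apply, bd_apply]
  by_cases hu : u ∈ T
  · rw [h T hu, zero_sub]
    unfold cone
    rw [if_pos hu, bd_apply]
    obtain ⟨S, hS, rfl⟩ : ∃ S : Finset V, u ∉ S ∧ insert u S = T := ⟨T.erase u, notMem_erase u T, insert_erase hu⟩
    rw [erase_insert hS]
    have h1 : (Sᶜ : Finset V) = insert u (insert u S)ᶜ := by
      ext v
      simp only [mem_compl, mem_insert]
      by_cases hv : v = u
      · subst hv; simp [hS]
      · simp [hv]
    rw [h1, sum_insert (by simp), h _ (mem_insert_self u S), smul_zero, zero_add, smul_sum, ← sum_neg_distrib]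
    refine sum_congr rfl fun v hv => ?_
    rw [mem_compl, mem_insert, not_or] at hv
    rw [if_pos (mem_insert_of_mem (mem_insert_self u S)), insert_comm, erase_insert (by
      rw [mem_insert, not_or]; exact ⟨fun e => hv.1 e.symm, hS⟩), smul_smul, smul_smul, ← neg_smul]
    congr 1
    have h2 := sg_swap u v S (fun e => hv.1 e.symm) hS hv.2
    have h3 := sg_mul_self v S
    have h4 := sg_mul_self v (insert u S)
    have h5 := sg_mul_self u S
    -- sg v (insert u S) * sg u (insert v S) = - (sg u S * sg v S)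
    calc sg v (insert u S) * sg u (insert v S)
        = sg v (insert u S) * (sg u (insert v S) * sg v S) * sg v S := by
          rw [mul_assoc, mul_assoc, h3, mul_one]
      _ = sg v (insert u S) * (-(sg v (insert u S) * sg u S)) * sg v S := by rw [h2]
      _ = -((sg v (insert u S) * sg v (insert u S)) * sg u S * sg v S) := by ring
      _ = -(sg u S * sg v S) := by rw [h4, one_mul]
  · have h1 : cone u (bd ℝ g) T = 0 := if_neg hu
    rw [h1, sub_zero]
    rw [sum_eq_single u]
    · unfold cone
      rw [if_pos (mem_insert_self u T), erase_insert hu, smul_smul, sg_mul_self, one_smul]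
    · intro v _ hv
      unfold cone
      rw [if_neg (by rw [mem_insert, not_or]; exact ⟨fun e => hv e.symm, hu⟩), smul_zero]
    · intro h2
      exact absurd (mem_compl.2 hu) h2

theorem split_zero {u : V} {g h : Finset V → M} (hg : Off u g) (hh : Off u h) (h0 : g + cone u h = 0) :
    g = 0 ∧ h = 0 := by
  constructor
  · funext T
    by_cases hu : u ∈ T
    · exact hg T hu
    · have := congrFun h0 T
      rw [Pi.add_apply] at this
      unfold cone at this
      rwa [if_neg hu, add_zero] at this
  · funext T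
    by_cases hu : u ∈ T
    · exact hh T hu
    · have := congrFun h0 (insert u T)
      rw [Pi.add_apply, hg _ (mem_insert_self u T), zero_add] at this
      unfold cone at this
      rw [if_pos (mem_insert_self u T), erase_insert hu] at this
      have h2 := congrArg (fun x => sg u T • x) this
      simp only [Pi.zero_apply, smul_zero, smul_smul, sg_mul_self, one_smul] at h2
      exact h2

theorem cone_sub (u : V) (g h : Finset V → M) : cone u (g - h) = cone u g - cone u h := by
  funext T
  rw [Pi.sub_apply]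
  unfold cone
  split_ifs
  · rw [Pi.sub_apply, smul_sub]
  · rw [sub_zero]

theorem Ch.bd {C : Finset V} {N : V → Submodule ℝ M} {i : ℕ} {c : Finset V → M} (h : Ch G C N (i + 1) c) :
    Ch G C N i (bd ℝ c) where
  supp T hT := by
    rw [bd_apply] at hT
    obtain ⟨v, hv, hv'⟩ := exists_ne_zero_of_sum_ne_zero hT
    have h1 : c (insert v T) ≠ 0 := fun e => hv' (by rw [e, smul_zero])
    obtain ⟨h2, h3, h4⟩ := h.supp _ h1
    refine ⟨h2.subset (by simp), fun x hx => h3 (mem_insert_of_mem hx), ?_⟩
    rw [card_insert_of_notMem (mem_compl.1 hv)] at h4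
    omega
  mem T v hv := by
    rw [bd_apply]
    exact Submodule.sum_mem _ fun w _ => zsmul_mem (h.mem _ v (mem_insert_of_mem hv)) _

theorem Ch.add {C : Finset V} {N : V → Submodule ℝ M} {i : ℕ} {c d : Finset V → M} (h : Ch G C N i c)
    (h' : Ch G C N i d) : Ch G C N i (c + d) where
  supp T hT := by
    by_cases h1 : c T = 0
    · exact h'.supp T fun h2 => hT (by rw [Pi.add_apply, h1, h2, add_zero])
    · exact h.supp T h1
  mem T v hv := (N v).add_mem (h.mem T v hv) (h'.mem T v hv)

theorem Ch.neg {C : Finset V} {N : V → Submodule ℝ M} {i : ℕ} {c : Finset V → M} (h : Ch G C N i c) :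
    Ch G C N i (-c) where
  supp T hT := h.supp T fun h2 => hT (by rw [Pi.neg_apply, h2, neg_zero])
  mem T v hv := (N v).neg_mem (h.mem T v hv)

theorem Ch.sub {C : Finset V} {N : V → Submodule ℝ M} {i : ℕ} {c d : Finset V → M} (h : Ch G C N i c)
    (h' : Ch G C N i d) : Ch G C N i (c - d) := by
  rw [sub_eq_add_neg]
  exact h.add h'.neg

theorem Ch.mono {C D : Finset V} {N N' : V → Submodule ℝ M} {i : ℕ} {c : Finset V → M} (h : Ch G C N i c)
    (hCD : C ⊆ D) (hN : ∀ v ∈ C, N v ≤ N' v) : Ch G D N' i c where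
  supp T hT := ⟨(h.supp T hT).1, (h.supp T hT).2.1.trans hCD, (h.supp T hT).2.2⟩
  mem T v hv := by
    by_cases h1 : c T = 0
    · rw [h1]; exact zero_mem _
    · exact hN v ((h.supp T h1).2.1 hv) (h.mem T v hv)

/-- the common neighbours in `C` -/
noncomputable def Lk (G : SimpleGraph V) (C : Finset V) (u : V) : Finset V := by
  classical exact C.filter fun v => G.Adj u v

theorem mem_Lk {C : Finset V} {u v : V} : v ∈ Lk G C u ↔ v ∈ C ∧ G.Adj u v := by
  unfold Lk; simp

/-- the part off `u` -/
theorem Ch.off {C : Finset V} {N : V → Submodule ℝ M} {i : ℕ} {c : Finset V → M} (h : Ch G C N i c) (u : V) :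
    Ch G (C.erase u) N i (off u c) where
  supp T hT := by
    unfold LR.off at hT
    by_cases hu : u ∈ T
    · exact absurd (if_pos hu) hT
    · rw [if_neg hu] at hT
      obtain ⟨h1, h2, h3⟩ := h.supp T hT
      exact ⟨h1, fun x hx => mem_erase.2 ⟨fun e => hu (e ▸ hx), h2 hx⟩, h3⟩
  mem T v hv := by
    unfold LR.off
    split_ifs
    · exact zero_mem _
    · exact h.mem T v hv

/-- the link part -/
theorem Ch.lk {C : Finset V} {N : V → Submodule ℝ M} {i : ℕ} {c : Finset V → M} (h : Ch G C N (i + 1) c) (u : V) :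
    Ch G (Lk G C u) (fun v => N v ⊓ N u) i (lk u c) where
  supp T hT := by
    unfold LR.lk at hT
    by_cases hu : u ∈ T
    · exact absurd (if_pos hu) hT
    · rw [if_neg hu] at hT
      have h0 : c (insert u T) ≠ 0 := fun e => hT (by rw [e, smul_zero])
      obtain ⟨h1, h2, h3⟩ := h.supp _ h0
      refine ⟨h1.subset (by simp), fun x hx => mem_Lk.2 ⟨h2 (mem_insert_of_mem hx), ?_⟩, ?_⟩
      · exact h1 (by simp) (by simp [hx]) fun e => hu (e ▸ hx)
      · rw [card_insert_of_notMem hu] at h3
        omega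
  mem T v hv := by
    unfold LR.lk
    split_ifs
    · exact zero_mem _
    · exact ⟨zsmul_mem (h.mem _ v (mem_insert_of_mem hv)) _, zsmul_mem (h.mem _ u (mem_insert_self u T)) _⟩

/-- cones -/
theorem Ch.cone {C : Finset V} {N : V → Submodule ℝ M} {i : ℕ} {g : Finset V → M} {u : V} (hu : u ∈ C)
    (h : Ch G (Lk G C u) N i g) (hg : ∀ T, g T ∈ N u) : Ch G C N (i + 1) (cone u g) where
  supp T hT := by
    unfold LR.cone at hT
    by_cases h1 : u ∈ T
    · rw [if_pos h1] at hT
      have h0 : g (T.erase u) ≠ 0 := fun e => hT (by rw [e, smul_zero])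
      obtain ⟨h2, h3, h4⟩ := h.supp _ h0
      refine ⟨?_, fun x hx => ?_, ?_⟩
      · intro a ha b hb hab
        by_cases e1 : a = u
        · subst e1
          exact (mem_Lk.1 (h3 (mem_erase.2 ⟨fun e => hab e.symm, hb⟩))).2
        · by_cases e2 : b = u
          · subst e2
            exact ((mem_Lk.1 (h3 (mem_erase.2 ⟨hab, ha⟩))).2).symm
          · exact h2 (by simp only [coe_erase, Set.mem_sdiff, Set.mem_singleton_iff]; exact ⟨ha, e1⟩)
              (by simp only [coe_erase, Set.mem_sdiff, Set.mem_singleton_iff]; exact ⟨hb, e2⟩) hab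
      · by_cases e : x = u
        · rw [e]; exact hu
        · exact (mem_Lk.1 (h3 (mem_erase.2 ⟨e, hx⟩))).1
      · rw [card_erase_of_mem h1] at h4
        have := card_pos.2 ⟨u, h1⟩
        omega
    · exact absurd (if_neg h1) hT
  mem T v hv := by
    unfold LR.cone
    split_ifs with h1
    · refine zsmul_mem ?_ _
      by_cases e : v = u
      · rw [e]; exact hg _
      · exact h.mem _ v (mem_erase.2 ⟨e, hv⟩)
    · exact zero_mem _

theorem Ch.offOf {C : Finset V} {N : V → Submodule ℝ M} {i : ℕ} {c : Finset V → M} {u : V} (h : Ch G C N i c)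
    (hu : u ∉ C) : Off u c := by
  intro T hT
  by_contra h0
  exact hu ((h.supp T h0).2.1 hT)

/-- the chains of the link are exact in the chains off `u`, from the family with `N u` replaced by `M` -/
theorem inj_step {C : Finset V} {N : V → Submodule ℝ M} {u : V} (hu : u ∈ C) {j : ℕ}
    (hex : Ex G C (Function.update N u ⊤) (j + 1)) {x e : Finset V → M} (hx : Ch G (Lk G (C.erase u) u) N j x)
    (he : Ch G (C.erase u) N (j + 1) e) (hxe : bd ℝ e = x) :
    ∃ f, Ch G (Lk G (C.erase u) u) N (j + 1) f ∧ bd ℝ f = x := by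
  have hux : Off u x := hx.offOf fun h => (notMem_erase u C) (mem_Lk.1 h).1
  have hue : Off u e := he.offOf (notMem_erase u C)
  have hx0 : bd ℝ x = 0 := by rw [← hxe, bd_bd]
  have hle : ∀ v, N v ≤ Function.update N u ⊤ v := by
    intro v
    by_cases h : v = u
    · rw [h, Function.update_self]; exact le_top
    · rw [Function.update_of_ne h]
  have hsub : Lk G (C.erase u) u ⊆ Lk G C u := fun v hv =>
    mem_Lk.2 ⟨mem_of_mem_erase (mem_Lk.1 hv).1, (mem_Lk.1 hv).2⟩
  have hz : Ch G C (Function.update N u ⊤) (j + 1) (e - LR.cone u x) := by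
    refine (he.mono (erase_subset u C) fun v _ => hle v).sub ?_
    refine Ch.cone hu (hx.mono hsub fun v _ => hle v) fun T => ?_
    rw [Function.update_self]
    exact Submodule.mem_top
  have hz0 : bd ℝ (e - LR.cone u x) = 0 := by
    rw [map_sub, bd_cone hux, hx0, hxe]
    have : LR.cone u (0 : Finset V → M) = 0 := by
      funext T
      unfold LR.cone
      split_ifs <;> simp
    rw [this]
    abel
  obtain ⟨w, hw, hw0⟩ := hex _ hz hz0
  have h1 : bd ℝ w = (bd ℝ (LR.off u w) + LR.lk u w) - LR.cone u (bd ℝ (LR.lk u w)) := by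
    conv_lhs => rw [decomp u w]
    rw [map_add, bd_cone (off_lk u w)]
    abel
  have h2 : (bd ℝ (LR.off u w) + LR.lk u w - e) + LR.cone u (x - bd ℝ (LR.lk u w)) = 0 := by
    rw [cone_sub]
    have h3 : bd ℝ w = e - LR.cone u x := hw0
    rw [h1] at h3
    have h4 := sub_eq_zero.2 h3
    rw [← h4]
    abel
  have h5 := (split_zero (u := u) (fun T hT => by
    rw [Pi.sub_apply, Pi.add_apply, off_bd (off_off u w) T hT, off_lk u w T hT, hue T hT]
    simp) (fun T hT => by
    rw [Pi.sub_apply, hux T hT, off_bd (off_lk u w) T hT, sub_zero]) h2).2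
  refine ⟨LR.lk u w, ?_, (sub_eq_zero.1 h5).symm⟩
  have h6 := hw.lk u
  refine ⟨fun T hT => ?_, fun T v hv => ?_⟩
  · obtain ⟨a1, a2, a3⟩ := h6.supp T hT
    refine ⟨a1, fun v hv => ?_, a3⟩
    obtain ⟨b1, b2⟩ := mem_Lk.1 (a2 hv)
    exact mem_Lk.2 ⟨mem_erase.2 ⟨fun e => (G.ne_of_adj b2) e.symm, b1⟩, b2⟩
  · by_cases h : v = u
    · subst h
      rw [off_lk v w T hv]
      exact zero_mem _
    · have h7 := (h6.mem T v hv).1
      rwa [Function.update_of_ne h] at h7

/-- the images of the subspaces in the quotient by `N u` -/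
def quo (N : V → Submodule ℝ M) (u : V) (v : V) : Submodule ℝ (M ⧸ N u) := (N v).map (N u).mkQ

theorem cup_quo (N : V → Submodule ℝ M) (u : V) (T : Finset V) : cup (quo N u) T = (cup N T).map (N u).mkQ := by
  unfold cup quo
  simp only [Submodule.map_iSup]

theorem dis_quo {C : Finset V} {N : V → Submodule ℝ M} {u : V} (hu : u ∈ C) (h : Dis G C N) :
    Dis G (Lk G (C.erase u) u) (quo N u) := by
  intro σ ρ hd hc hs m hm
  obtain ⟨m, rfl⟩ := (N u).mkQ_surjective m
  have hadj : ∀ v ∈ σ ∪ ρ, G.Adj u v := fun v hv => (mem_Lk.1 (hs hv)).2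
  have hd' : Disjoint σ (insert u ρ) := by
    rw [disjoint_insert_right]
    exact ⟨fun h1 => (G.ne_of_adj (hadj u (mem_union_left _ h1))) rfl, hd⟩
  have hc' : G.IsClique ((σ ∪ insert u ρ : Finset V) : Set V) := by
    rw [union_insert, coe_insert]
    intro a ha b hb hab
    rcases ha with rfl | ha
    · rcases hb with rfl | hb
      · exact absurd rfl hab
      · exact hadj b hb
    · rcases hb with rfl | hb
      · exact (hadj a ha).symm
      · exact hc ha hb hab
  have hs' : σ ∪ insert u ρ ⊆ C := by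
    rw [union_insert]
    intro x hx
    rcases mem_insert.1 hx with rfl | hx
    · exact hu
    · exact mem_of_mem_erase (mem_Lk.1 (hs hx)).1
  have h1 := h σ (insert u ρ) hd' hc' hs' m (fun v hv => by
    have h2 := hm v hv
    rw [cup_quo] at h2
    unfold quo at h2
    rw [← Submodule.map_sup] at h2
    obtain ⟨y, hy, hy'⟩ := h2
    rw [cup_insert]
    have h3 : m - y ∈ N u := by
      rw [← Submodule.Quotient.eq]
      exact hy'.symm
    have h4 : m = y + (m - y) := by abel
    rw [h4]
    refine Submodule.add_mem _ ?_ ?_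
    · exact (sup_le_sup_left le_sup_right (N v)) hy
    · exact (le_sup_left.trans le_sup_right : N u ≤ N v ⊔ (N u ⊔ cup N ρ)) h3)
  rw [cup_insert] at h1
  obtain ⟨a, ha, b, hb, rfl⟩ := Submodule.mem_sup.1 h1
  obtain ⟨b1, hb1, b2, hb2, rfl⟩ := Submodule.mem_sup.1 hb
  rw [map_add, map_add]
  have h5 : (N u).mkQ b1 = 0 := by
    rw [Submodule.mkQ_apply]
    exact (Submodule.Quotient.mk_eq_zero _).2 hb1
  rw [h5, zero_add]
  refine Submodule.add_mem _ (Submodule.mem_sup_left (mem_cap.2 fun v hv => ?_)) (Submodule.mem_sup_right ?_)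
  · exact ⟨a, mem_cap.1 ha v hv, rfl⟩
  · rw [cup_quo]
    exact ⟨b2, hb2, rfl⟩

/-- the step with the quotient by `N u` -/
theorem quo_step {C : Finset V} {N : V → Submodule ℝ M} {u : V} (hu : u ∈ C) (h : Dis G C N) {j : ℕ}
    (hex : Ex G (Lk G (C.erase u) u) (quo N u) (j + 1)) {x f : Finset V → M} (hx : ∀ T, x T ∈ N u)
    (hf : Ch G (Lk G (C.erase u) u) N (j + 1) f) (hxf : bd ℝ f = x) :
    ∃ g, Ch G (Lk G (C.erase u) u) N (j + 1) g ∧ (∀ T, g T ∈ N u) ∧ bd ℝ g = x := by
  have hmap : ∀ c : Finset V → M, bd ℝ (fun T => (N u).mkQ (c T)) = fun T => (N u).mkQ (bd ℝ c T) := by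
    intro c
    funext T
    rw [bd_apply, bd_apply, map_sum]
    exact sum_congr rfl fun v _ => (map_zsmul _ _ _).symm
  have h1 : Ch G (Lk G (C.erase u) u) (quo N u) (j + 1) (fun T => (N u).mkQ (f T)) := by
    refine ⟨fun T hT => hf.supp T fun e => hT ?_, fun T v hv => ⟨f T, hf.mem T v hv, rfl⟩⟩
    show (N u).mkQ (f T) = 0
    rw [e, map_zero]
  obtain ⟨k, hk, hk0⟩ := hex _ h1 (by
    rw [hmap]
    funext T
    rw [hxf]
    exact (Submodule.Quotient.mk_eq_zero _).2 (hx T))
  have hlift : ∀ T, ∃ y : M, (N u).mkQ y = k T ∧ (k T = 0 → y = 0) ∧ ∀ v ∈ T, y ∈ N v := by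
    intro T
    by_cases h0 : k T = 0
    · exact ⟨0, by rw [h0, map_zero], fun _ => rfl, fun v _ => zero_mem _⟩
    · obtain ⟨h2, h3, -⟩ := hk.supp T h0
      obtain ⟨m, hm⟩ := (N u).mkQ_surjective (k T)
      have hT : ∀ v ∈ T, G.Adj u v := fun v hv => (mem_Lk.1 (h3 hv)).2
      have h4 := h T {u} (by
        rw [disjoint_singleton_right]
        exact fun h5 => (G.ne_of_adj (hT u h5)) rfl) (by
        rw [union_comm, ← insert_eq, coe_insert]
        intro a ha b hb hab
        rcases ha with rfl | ha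
        · rcases hb with rfl | hb
          · exact absurd rfl hab
          · exact hT b hb
        · rcases hb with rfl | hb
          · exact (hT a ha).symm
          · exact h2 ha hb hab) (by
        intro a ha
        rcases mem_union.1 ha with ha | ha
        · exact mem_of_mem_erase (mem_Lk.1 (h3 ha)).1
        · rw [mem_singleton.1 ha]; exact hu) m (by
        intro v hv
        obtain ⟨y, hy, hy'⟩ := hk.mem T v hv
        have h6 : cup N {u} = N u := by
          have := cup_insert N u ∅
          rwa [cup_empty, sup_bot_eq] at this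
        rw [h6]
        have h7 : m - y ∈ N u := by
          rw [← Submodule.Quotient.eq]
          exact hm.trans hy'.symm
        have h8 : m = y + (m - y) := by abel
        rw [h8]
        exact Submodule.add_mem _ (Submodule.mem_sup_left hy) (Submodule.mem_sup_right h7))
      have h6 : cup N {u} = N u := by
        have := cup_insert N u ∅
        rwa [cup_empty, sup_bot_eq] at this
      rw [h6] at h4
      obtain ⟨a, ha, b, hb, hab⟩ := Submodule.mem_sup.1 h4
      refine ⟨a, ?_, fun h9 => absurd h9 h0, fun v hv => mem_cap.1 ha v hv⟩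
      rw [← hm, ← hab, map_add]
      have : (N u).mkQ b = 0 := (Submodule.Quotient.mk_eq_zero _).2 hb
      rw [this, add_zero]
  choose y hy1 hy2 hy3 using hlift
  have hy : Ch G (Lk G (C.erase u) u) N (j + 1 + 1) y :=
    ⟨fun T hT => hk.supp T fun e => hT (hy2 T e), fun T v hv => hy3 T v hv⟩
  refine ⟨f - bd ℝ y, hf.sub hy.bd, fun T => ?_, by rw [map_sub, bd_bd, hxf, sub_zero]⟩
  rw [← Submodule.Quotient.mk_eq_zero, ← Submodule.mkQ_apply, Pi.sub_apply, map_sub]
  have h2 := congrFun hk0 T
  have h3 := congrFun (hmap y) T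
  have h4 : (fun T => (N u).mkQ (y T)) = k := funext hy1
  rw [h4, h2] at h3
  rw [← h3, sub_self]

/-- the inductive step -/
theorem step {C : Finset V} {N : V → Submodule ℝ M} {u : V} (hu : u ∈ C) (h : Dis G C N) {j : ℕ}
    (h1 : Ex G (C.erase u) N (j + 1)) (h2 : Ex G C (Function.update N u ⊤) (j + 1))
    (h3 : Ex G (Lk G (C.erase u) u) (quo N u) (j + 1)) : Ex G C N (j + 1) := by
  intro c hc hc0
  have hsub : Lk G (C.erase u) u ⊆ Lk G C u := fun v hv =>
    mem_Lk.2 ⟨mem_of_mem_erase (mem_Lk.1 hv).1, (mem_Lk.1 hv).2⟩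
  have hx := hc.lk u
  have e1 : bd ℝ c = (bd ℝ (LR.off u c) + LR.lk u c) - LR.cone u (bd ℝ (LR.lk u c)) := by
    conv_lhs => rw [decomp u c]
    rw [map_add, bd_cone (off_lk u c)]
    abel
  have hneg : ∀ g : Finset V → M, LR.cone u (-g) = -LR.cone u g := by
    intro g
    have := cone_sub u 0 g
    have h0 : LR.cone u (0 : Finset V → M) = 0 := by
      funext T
      unfold LR.cone
      split_ifs <;> simp
    rwa [zero_sub, h0, zero_sub] at this
  obtain ⟨e2, e3⟩ := split_zero (u := u) (g := bd ℝ (LR.off u c) + LR.lk u c) (h := -bd ℝ (LR.lk u c))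
    (fun T hT => by rw [Pi.add_apply, off_bd (off_off u c) T hT, off_lk u c T hT, add_zero])
    (fun T hT => by rw [Pi.neg_apply, off_bd (off_lk u c) T hT, neg_zero])
    (by rw [hneg, ← sub_eq_add_neg, ← e1, hc0])
  have hx' : Ch G (Lk G (C.erase u) u) N j (LR.lk u c) := by
    refine ⟨fun T hT => ?_, fun T v hv => (hx.mem T v hv).1⟩
    obtain ⟨a1, a2, a3⟩ := hx.supp T hT
    refine ⟨a1, fun v hv => ?_, a3⟩
    obtain ⟨b1, b2⟩ := mem_Lk.1 (a2 hv)
    exact mem_Lk.2 ⟨mem_erase.2 ⟨fun e => (G.ne_of_adj b2) e.symm, b1⟩, b2⟩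
  obtain ⟨f, hf, hf0⟩ := inj_step hu h2 hx' (hc.off u).neg (by
    rw [map_neg, neg_eq_iff_add_eq_zero]
    exact e2)
  have hxu : ∀ T, LR.lk u c T ∈ N u := by
    intro T
    unfold LR.lk
    split_ifs
    · exact zero_mem _
    · exact zsmul_mem (hc.mem _ u (mem_insert_self u T)) _
  obtain ⟨g, hg, hgu, hg0⟩ := quo_step hu h h3 hxu hf hf0
  have hgo : Off u g := hg.offOf fun h => (notMem_erase u C) (mem_Lk.1 h).1
  have hfin : Ch G (C.erase u) N (j + 1) (LR.off u c + g) :=
    (hc.off u).add (hg.mono (fun v hv => (mem_Lk.1 hv).1) fun v _ => le_rfl)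
  obtain ⟨e, he, he0⟩ := h1 _ hfin (by rw [map_add, hg0]; exact e2)
  refine ⟨e - LR.cone u g, (he.mono (erase_subset u C) fun v _ => le_rfl).sub
    (Ch.cone hu (hg.mono hsub fun v _ => le_rfl) hgu), ?_⟩
  rw [map_sub, he0, bd_cone hgo, hg0]
  conv_rhs => rw [decomp u c]
  abel

theorem Dis.mono {C D : Finset V} {N : V → Submodule ℝ M} (h : Dis G C N) (hD : D ⊆ C) : Dis G D N :=
  fun σ ρ h1 h2 h3 m hm => h σ ρ h1 h2 (h3.trans hD) m hm

theorem Dis.update {C : Finset V} {N : V → Submodule ℝ M} {u : V} (h : Dis G C N) :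
    Dis G C (Function.update N u ⊤) := by
  intro σ ρ h1 h2 h3 m hm
  by_cases hρ : u ∈ ρ
  · have h4 : cup (Function.update N u ⊤) ρ = ⊤ := by
      rw [eq_top_iff]
      have := le_cup (N := Function.update N u ⊤) hρ
      rwa [Function.update_self] at this
    rw [h4, sup_top_eq]
    exact Submodule.mem_top
  · have h4 : cup (Function.update N u ⊤) ρ = cup N ρ := by
      unfold cup
      refine iSup_congr fun v => iSup_congr fun hv => ?_
      rw [Function.update_of_ne]
      rintro rfl
      exact hρ hv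
    rw [h4]
    have h5 := h (σ.erase u) ρ (h1.mono_left (erase_subset u σ))
      (h2.subset (by
        intro x hx
        have hx' : x ∈ σ.erase u ∪ ρ := hx
        rcases mem_union.1 hx' with hx | hx
        · exact mem_union_left _ (mem_of_mem_erase hx)
        · exact mem_union_right _ hx))
      ((union_subset_union_left (erase_subset u σ)).trans h3) m (fun v hv => by
        have h6 := hm v (mem_of_mem_erase hv)
        rw [h4, Function.update_of_ne (ne_of_mem_erase hv)] at h6
        exact h6)
    have h7 : cap N (σ.erase u) ≤ cap (Function.update N u ⊤) σ := by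
      intro y hy
      rw [mem_cap] at hy ⊢
      intro v hv
      by_cases e : v = u
      · rw [e, Function.update_self]; exact Submodule.mem_top
      · rw [Function.update_of_ne e]
        exact hy v (mem_erase.2 ⟨e, hv⟩)
    exact (sup_le_sup_right h7 _) h5

end

/-- **Exactness above the Leray number.** -/
theorem leray {d : ℕ} (hL : ∀ (M : Type) [AddCommGroup M] [Module ℝ M] (C : Finset V) (i : ℕ), d < i →
      Ex G C (fun _ => (⊤ : Submodule ℝ M)) i) :
    ∀ (n : ℕ) (C : Finset V), C.card = n → ∀ (M : Type) [AddCommGroup M] [Module ℝ M] (N : V → Submodule ℝ M),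
      Dis G C N → ∀ i, d < i → Ex G C N i := by
  classical
  intro n
  induction n using Nat.strong_induction_on with
  | _ n ih =>
    intro C hC M _ _ N hN
    obtain ⟨k, hk⟩ : ∃ k, (C.filter fun v => N v ≠ ⊤).card = k := ⟨_, rfl⟩
    induction k generalizing N with
    | zero =>
      intro i hi c hc hc0
      have h1 : ∀ v ∈ C, N v = ⊤ := by
        intro v hv
        by_contra h
        exact (card_eq_zero.1 hk ▸ notMem_empty v : v ∉ C.filter fun v => N v ≠ ⊤) (mem_filter.2 ⟨hv, h⟩)
      obtain ⟨e, he, he0⟩ := hL M C i hi c (hc.mono subset_rfl fun v _ => le_top) hc0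
      exact ⟨e, he.mono subset_rfl fun v hv => by rw [h1 v hv], he0⟩
    | succ k ihk =>
      obtain ⟨u, hu⟩ : (C.filter fun v => N v ≠ ⊤).Nonempty := by
        rw [← card_pos]
        omega
      obtain ⟨huC, huN⟩ := mem_filter.1 hu
      intro i hi
      obtain ⟨j, rfl⟩ : ∃ j, i = j + 1 := ⟨i - 1, by omega⟩
      have hlt : (C.erase u).card < n := by
        rw [← hC]
        exact card_erase_lt_of_mem huC
      have hlt2 : (Lk G (C.erase u) u).card < n :=
        lt_of_le_of_lt (card_le_card fun v hv => (mem_Lk.1 hv).1) hlt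
      refine step huC hN (ih _ hlt _ rfl M N (hN.mono (erase_subset u C)) _ hi) ?_
        (ih _ hlt2 _ rfl (M ⧸ N u) _ (dis_quo huC hN) _ hi)
      refine ihk _ hN.update ?_ _ hi
      have h1 : (C.filter fun v => Function.update N u ⊤ v ≠ ⊤) = (C.filter fun v => N v ≠ ⊤).erase u := by
        ext v
        simp only [mem_filter, mem_erase]
        by_cases e : v = u
        · subst e; simp
        · rw [Function.update_of_ne e]
          simp [e]
      rw [h1, card_erase_of_mem hu, hk]
      rfl

end Pool.Agent.V5helper74.LR
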