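import Pool.Agent.V5helper74.LR.Alg
import Pool.Agent.R703.MO.Defs

/-!
# Project LR: the base of the induction, chains with coefficients in a vector space
-/

set_option autoImplicit false
set_option linter.unusedSectionVars false

namespace Pool.Agent.V5helper74.LR

open Finset Pool.Agent.W907.SG Pool.Agent.R703.MO

variable {V : Type} [Fintype V] [LinearOrder V] {G : SimpleGraph V}

theorem real_exact {A : Set V} {i : ℕ} (h : HomZero G A i) {c : Finset V → ℝ}
    (hc : ∀ T, c T ≠ 0 → G.IsClique (T : Set V) ∧ (T : Set V) ⊆ A ∧ T.card = i) (h0 : bd ℝ c = 0) :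
    ∃ e : Finset V → ℝ, (∀ T, e T ≠ 0 → G.IsClique (T : Set V) ∧ (T : Set V) ⊆ A ∧ T.card = i + 1) ∧ bd ℝ e = c := by
  unfold HomZero beta at h
  have h1 : BB G (neg ℝ V) A ∅ i = ZZ G (neg ℝ V) A ∅ i := by
    apply Submodule.eq_of_le_of_finrank_le (BB_le_ZZ G (neg ℝ V) A ∅ i)
    omega
  have h2 : c ∈ ZZ G (neg ℝ V) A ∅ i := by
    refine ⟨mem_KK.2 ⟨fun T hT => ?_, fun T t _ => rfl⟩, h0⟩
    by_contra h3
    exact hT (hc T h3)
  rw [← h1] at h2
  obtain ⟨e, he, he'⟩ := h2
  refine ⟨e, fun T hT => ?_, he'⟩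
  by_contra h3
  exact hT ((mem_KK.1 he).1 T h3)

set_option maxHeartbeats 4000000 in
theorem base {A : Finset V} {i : ℕ} (h : HomZero G (A : Set V) i) (M : Type) [AddCommGroup M] [Module ℝ M] :
    Ex G A (fun _ => (⊤ : Submodule ℝ M)) i := by
  classical
  intro c hc h0
  let b := Module.Basis.ofVectorSpace ℝ M
  have hcoord : ∀ k T, bd ℝ (fun T => b.repr (c T) k) T = b.repr (bd ℝ c T) k := by
    intro k T
    rw [bd_apply, bd_apply, map_sum, Finsupp.finsetSum_apply]
    refine sum_congr rfl fun v _ => ?_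
    rw [map_zsmul]
    rfl
  have h1 : ∀ k, ∃ e : Finset V → ℝ, (∀ T, e T ≠ 0 → G.IsClique (T : Set V) ∧ T ⊆ A ∧ T.card = i + 1) ∧
      bd ℝ e = fun T => b.repr (c T) k := by
    intro k
    refine real_exact h (fun T hT => hc.supp T fun h2 => hT ?_) ?_
    · rw [h2, map_zero]; rfl
    · funext T
      rw [hcoord, h0]
      simp
  choose e he1 he2 using h1
  let S : Finset _ := univ.biUnion fun T => (b.repr (c T)).support
  refine ⟨fun T => ∑ k ∈ S, e k T • b k, ⟨fun T hT => ?_, fun T v _ => Submodule.mem_top⟩, ?_⟩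
  · obtain ⟨k, _, hk⟩ := exists_ne_zero_of_sum_ne_zero hT
    exact he1 k T fun h2 => hk (by rw [h2, zero_smul])
  · funext T
    have h2 : bd ℝ (fun T => ∑ k ∈ S, e k T • b k) T = ∑ k ∈ S, (bd ℝ (e k) T) • b k := by
      rw [bd_apply]
      simp only [smul_sum, bd_apply, sum_smul]
      rw [sum_comm]
      refine sum_congr rfl fun k _ => sum_congr rfl fun v _ => ?_
      rw [smul_assoc]
    rw [h2]
    have h3 : c T = ∑ k ∈ S, b.repr (c T) k • b k := by
      conv_lhs => rw [← b.linearCombination_repr (c T)]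
      rw [Finsupp.linearCombination_apply, Finsupp.sum]
      refine sum_subset (fun k hk => mem_biUnion.2 ⟨T, mem_univ _, hk⟩) fun k _ hk => ?_
      rw [Finsupp.notMem_support_iff.1 hk, zero_smul]
    refine Eq.trans (sum_congr rfl fun k _ => ?_) h3.symm
    rw [he2]

/-- **Exactness above the Leray number.** -/
theorem leray_hom {d : ℕ} (hL : ∀ (A : Set V) (i : ℕ), d < i → HomZero G A i) (M : Type) [AddCommGroup M]
    [Module ℝ M] (N : V → Submodule ℝ M) (hN : Dis G univ N) (i : ℕ) (hi : d < i) : Ex G univ N i := by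
  have h1 : ∀ (M : Type) [AddCommGroup M] [Module ℝ M] (C : Finset V) (i : ℕ), d < i →
      Ex G C (fun _ => (⊤ : Submodule ℝ M)) i := by
    intro M _ _ C i hi
    exact base (hL _ i hi) M
  exact leray h1 (univ : Finset V).card univ rfl M N hN i hi

end Pool.Agent.V5helper74.LR
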