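import Pool.Agent.V5helper74.LR.Push
import Pool.Agent.N496.CV.P_SPEC
import Pool.Agent.N496.CV.P_GDD
import Pool.Agent.N496.CV.P_INJ
import Pool.Agent.N496.CV.P_FINP
import Pool.Agent.N496.CV.P_FREEP
import Pool.Agent.N496.CV.P_SUS
import Pool.Agent.N496.CV.Asm

/-!
# Project LR: the coefficients of the homology of a subgroup of the right-angled Coxeter group of an octahedralization
-/

set_option autoImplicit false
set_option linter.unusedSectionVars false

namespace Pool.Agent.V5helper74.LR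

open Finset Pool.Agent.W907.SG Pool.Agent.W461.SGN Pool.Agent.V5helper75.VO Pool.Agent.N496.CV

section

variable {V : Type} [Fintype V] [LinearOrder V] {G : SimpleGraph V}
variable {R : Type} [Ring R] [Module ℝ R] [IsScalarTower ℝ R R] {K : Subgroup (W (oct G))} {u : K →* R}

variable (K u) in
/-- the coefficients -/
def MM : Submodule ℝ (W (oct G) → R) where
  carrier := {f | InM K u Set.univ ⊥ f}
  add_mem' := fun ha hb => (PSUS.IM K u Set.univ ⊥).add_mem ha hb
  zero_mem' := (PSUS.IM K u Set.univ ⊥).zero_mem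
  smul_mem' := by
    intro r f hf
    refine ⟨fun w h => hf.supp w fun h' => h (by rw [Pi.smul_apply, h', smul_zero]), fun p hp w => ?_,
      fun h w => ?_, ?_⟩
    · rw [Pi.smul_apply, Pi.smul_apply, hf.eqE p hp, smul_comm]
    · rw [Pi.smul_apply, Pi.smul_apply, hf.eqK, smul_mul_assoc]
    · obtain ⟨S, hS⟩ := hf.fin
      exact ⟨S, fun w h => hS w fun h' => h (by rw [Pi.smul_apply, h', smul_zero])⟩

/-- the right translations -/
noncomputable def sp (p : V ×ₗ Bool) : MM K u →ₗ[ℝ] MM K u where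
  toFun f := ⟨fun w => f.1 (w * (cox (oct G)).simple p), PSUS.mem_rt (good_univ K) f.2 trivial⟩
  map_add' _ _ := rfl
  map_smul' _ _ := rfl

theorem sp_apply (p : V ×ₗ Bool) (f : MM K u) (w : W (oct G)) :
    (sp p f : MM K u).1 w = f.1 (w * (cox (oct G)).simple p) := rfl

theorem sp_inv : Inv G (sp : V ×ₗ Bool → MM K u →ₗ[ℝ] MM K u) where
  inv p m := by
    apply Subtype.ext
    funext w
    rw [sp_apply, sp_apply, mul_assoc, simple_mul_self, mul_one]
  comm p q h m := by
    apply Subtype.ext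
    funext w
    rw [sp_apply, sp_apply, sp_apply, sp_apply, mul_assoc, mul_assoc, simple_comm (oct G) p q h]

/-- the common neighbours in the octahedralization -/
def LL (G : SimpleGraph V) (ρ : Finset V) : Set (V ×ₗ Bool) := {p | ∀ v ∈ ρ, G.Adj (fs p) v}

/-- the data of the coinvariants -/
structure Coi (u : K →* R) (ρ : Finset V) (Y : Set (W (oct G))) (E : Subgroup (W (oct G) × ℤˣ))
    (Φ : (W (oct G) → R) → (W (oct G) → R)) : Prop where
  good : Good K (LL G ρ) Y E
  map : ∀ f, InM K u Set.univ ⊥ f → InM K u Y E (Φ f)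
  add : ∀ f g, InM K u Set.univ ⊥ f → InM K u Set.univ ⊥ g → Φ (f + g) = Φ f + Φ g
  neg : ∀ f, InM K u Set.univ ⊥ f → Φ (-f) = - Φ f
  zero : Φ 0 = 0
  comm : ∀ f, InM K u Set.univ ⊥ f → ∀ p ∈ LL G ρ, ∀ w,
    Φ (fun x => f (x * (cox (oct G)).simple p)) w = Φ f (w * (cox (oct G)).simple p)
  surj : ∀ g, InM K u Y E g → ∃ f, InM K u Set.univ ⊥ f ∧ Φ f = g
  ker : ∀ f : MM K u, Φ f.1 = 0 ↔ f ∈ cup (NN (sp : V ×ₗ Bool → MM K u →ₗ[ℝ] MM K u)) ρ

theorem coi_empty : Coi u (∅ : Finset V) Set.univ ⊥ id where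
  good := (good_univ K).mono (Set.subset_univ _)
  map _ h := h
  add _ _ _ _ := rfl
  neg _ _ := rfl
  zero := rfl
  comm _ _ _ _ _ := rfl
  surj g hg := ⟨g, hg, rfl⟩
  ker f := by
    rw [cup_empty, Submodule.mem_bot]
    exact ⟨fun h => Subtype.ext h, fun h => by rw [h]; rfl⟩

theorem two_tf {x y : R} (h : x + x = y + y) : x = y := by
  have h1 : (2 : ℝ) • x = (2 : ℝ) • y := by
    rw [two_smul, two_smul, h]
  have h2 := congrArg (fun z => (1 / 2 : ℝ) • z) h1
  simp only [smul_smul] at h2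
  norm_num at h2
  exact h2

theorem coi_insert (hR : Rg K u) {ρ : Finset V} {w : V} (hadj : ∀ v ∈ ρ, G.Adj w v)
    {Y : Set (W (oct G))} {E : Subgroup (W (oct G) × ℤˣ)} {Φ : (W (oct G) → R) → (W (oct G) → R)}
    (h : Coi u ρ Y E Φ) : ∃ Y' E' Φ', Coi u (insert w ρ) Y' E' Φ' := by
  classical
  have hs : pt w true ∈ LL G ρ := hadj
  have ht : pt w false ∈ LL G ρ := hadj
  have hne := pt_ne w
  have hna : ¬ (oct G).Adj (pt w true) (pt w false) := fun h1 => (G.ne_of_adj h1) rfl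
  have hLL : LL G (insert w ρ) ⊆ LL G ρ := fun p hp v hv => hp v (mem_insert_of_mem hv)
  have hLs : ∀ p ∈ LL G (insert w ρ), (oct G).Adj (pt w true) p ∧ (oct G).Adj (pt w false) p := fun p hp =>
    ⟨(hp w (mem_insert_self w ρ)).symm, (hp w (mem_insert_self w ρ)).symm⟩
  obtain ⟨Ψ, q1, q2, q3, q4, q5, q6, q7, q8⟩ := freep PSPEC.spec _ (oct G) K R u (LL G ρ) Y E (pt w true)
    (pt w false) hR h.good hs ht hne hna
  have hgood := gdd _ (oct G) K (LL G ρ) (LL G (insert w ρ)) Y E (pt w true) (pt w false) h.good hs ht hLL hLs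
  refine ⟨fr K Y (addD E (pt w true) (pt w false)), addD E (pt w true) (pt w false), fun f => Ψ (Φ f), ?_⟩
  refine ⟨hgood, fun f hf => q1 _ (h.map f hf), fun f g hf hg => ?_, fun f hf => ?_, ?_, fun f hf p hp x => ?_,
    fun g hg => ?_, fun f => ?_⟩
  · rw [h.add f g hf hg, q2 _ _ (h.map f hf) (h.map g hg)]
  · rw [h.neg f hf, q3 _ (h.map f hf)]
  · rw [h.zero, q4]
  · have e1 : Φ (fun y => f (y * (cox (oct G)).simple p)) = fun y => Φ f (y * (cox (oct G)).simple p) :=
      funext fun y => h.comm f hf p (hLL hp) y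
    rw [e1]
    exact q5 _ (h.map f hf) p (hLL hp) (hLs p hp).1 (hLs p hp).2 x
  · obtain ⟨g', hg', rfl⟩ := q7 g hg
    obtain ⟨f, hf, rfl⟩ := h.surj g' hg'
    exact ⟨f, hf, rfl⟩
  · -- the translates by the two generators
    have hcomm : ∀ δ, ∀ f : MM K u, Φ (sp (pt w δ) f : MM K u).1 = fun y => Φ f.1 (y * (cox (oct G)).simple (pt w δ)) :=
      fun δ f => funext fun y => h.comm f.1 f.2 (pt w δ) hadj y
    rw [cup_insert]
    constructor
    · intro h0
      obtain ⟨p, q, hp, hq, hpq, hps, hqt⟩ := PSUS.ker_split (finp PSPEC.spec) hR h.good hs ht hne hna Ψ q2 q6 q8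
        (Φ f.1) (h.map f.1 f.2) h0
      have key : ∀ δ, ∀ p : W (oct G) → R, InM K u Y E p → (∀ x, p (x * (cox (oct G)).simple (pt w δ)) = - p x) →
          ∃ a : MM K u, sp (pt w δ) a = -a ∧ Φ a.1 = p := by
        intro δ p hp hpa
        obtain ⟨p', hp', hpp⟩ := h.surj p hp
        obtain ⟨b, hb⟩ : ∃ b : MM K u, b.1 = p' := ⟨⟨p', hp'⟩, rfl⟩
        refine ⟨(1 / 2 : ℝ) • (b - sp (pt w δ) b), ?_, ?_⟩
        · rw [map_smul, map_sub, sp_inv.inv]
          module
        · have e1 : (((1 / 2 : ℝ) • (b - sp (pt w δ) b) : MM K u)).1 + (((1 / 2 : ℝ) • (b - sp (pt w δ) b) :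
              MM K u)).1 = b.1 + (-(sp (pt w δ) b : MM K u)).1 := by
            have e2 : ((1 / 2 : ℝ) • (b - sp (pt w δ) b) : MM K u) + ((1 / 2 : ℝ) • (b - sp (pt w δ) b) : MM K u) =
                b + -(sp (pt w δ) b) := by
              rw [← two_smul ℝ, smul_smul]
              norm_num
              abel
            exact congrArg Subtype.val e2
          have e3 := h.add _ _ (((1 / 2 : ℝ) • (b - sp (pt w δ) b) : MM K u)).2
            (((1 / 2 : ℝ) • (b - sp (pt w δ) b) : MM K u)).2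
          rw [e1, h.add _ _ b.2 (-(sp (pt w δ) b : MM K u)).2] at e3
          have e4 : Φ (-(sp (pt w δ) b : MM K u)).1 = p := by
            have e5 := h.neg _ (sp (pt w δ) b : MM K u).2
            have e6 : (-(sp (pt w δ) b : MM K u)).1 = -((sp (pt w δ) b : MM K u).1) := rfl
            rw [e6, e5, hcomm, hb, hpp]
            funext x
            rw [Pi.neg_apply, hpa, neg_neg]
          rw [hb, hpp, e4] at e3
          funext x
          exact (two_tf (congrFun e3 x)).symm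
      obtain ⟨a, ha, hap⟩ := key true p hp hps
      obtain ⟨b, hb, hbq⟩ := key false q hq hqt
      have e1 : Φ (f - (a + b)).1 = 0 := by
        have e2 : (f - (a + b)).1 = f.1 + (-(a + b)).1 := by
          rw [sub_eq_add_neg]; rfl
        have e3 : (-(a + b)).1 = -((a + b).1) := rfl
        have e4 : (a + b).1 = a.1 + b.1 := rfl
        rw [e2, h.add _ _ f.2 (-(a + b)).2, e3, h.neg _ (a + b).2, e4, h.add _ _ a.2 b.2, hap, hbq, hpq]
        abel
      have e5 : f = (a + b) + (f - (a + b)) := by abel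
      rw [e5]
      exact Submodule.add_mem _ (Submodule.mem_sup_left (Submodule.add_mem _ (Submodule.mem_sup_left (mem_anti.2 ha))
        (Submodule.mem_sup_right (mem_anti.2 hb)))) (Submodule.mem_sup_right ((h.ker _).1 e1))
    · intro h0
      obtain ⟨n, hn, r, hr, hnr⟩ := Submodule.mem_sup.1 h0
      obtain ⟨a, ha, b, hb, hab⟩ := Submodule.mem_sup.1 hn
      rw [mem_anti] at ha hb
      have e1 := (h.ker r).2 hr
      have hA : ∀ δ, ∀ a : MM K u, sp (pt w δ) a = -a →
          ∀ x, Φ a.1 (x * (cox (oct G)).simple (pt w δ)) = - Φ a.1 x := by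
        intro δ a ha x
        have e2 := hcomm δ a
        rw [ha] at e2
        have e3 : (-a : MM K u).1 = -(a.1) := rfl
        rw [e3, h.neg _ a.2] at e2
        exact (congrFun e2 x).symm
      have e2 : Φ f.1 = Φ a.1 + Φ b.1 := by
        have e3 : f.1 = (a.1 + b.1) + r.1 := by
          rw [← hnr, ← hab]; rfl
        have e4 : InM K u Set.univ ⊥ (a.1 + b.1) := (a + b).2
        rw [e3, h.add _ _ e4 r.2, e1, add_zero, h.add _ _ a.2 b.2]
      show Ψ (Φ f.1) = 0
      rw [e2, q2 _ _ (h.map _ a.2) (h.map _ b.2), q6 _ (h.map _ a.2) (Or.inl (hA true a ha)),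
        q6 _ (h.map _ b.2) (Or.inr (hA false b hb)), add_zero]

theorem exists_coi (hR : Rg K u) (ρ : Finset V) (hρ : G.IsClique (ρ : Set V)) : ∃ Y E Φ, Coi u ρ Y E Φ := by
  induction ρ using Finset.induction_on with
  | empty => exact ⟨_, _, _, coi_empty⟩
  | insert w ρ hw ih =>
    obtain ⟨Y, E, Φ, h⟩ := ih (hρ.subset (by simp))
    exact coi_insert hR (fun v hv => hρ (by simp) (by simp [hv]) fun e => hw (e ▸ hv)) h

theorem sp_reg (hR : Rg K u) : Reg G (sp : V ×ₗ Bool → MM K u →ₗ[ℝ] MM K u) := by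
  intro ρ hρ w hw m h1 h2
  obtain ⟨Y, E, Φ, h⟩ := exists_coi hR ρ hρ
  rw [← h.ker] at h1 h2 ⊢
  have hna : ¬ (oct G).Adj (pt w true) (pt w false) := fun h1 => (G.ne_of_adj h1) rfl
  have key : ∀ δ, Φ (m + sp (pt w δ) m : MM K u).1 = 0 →
      ∀ x, Φ m.1 (x * (cox (oct G)).simple (pt w δ)) = - Φ m.1 x := by
    intro δ h3 x
    have e1 : (m + sp (pt w δ) m : MM K u).1 = m.1 + (sp (pt w δ) m : MM K u).1 := rfl
    rw [e1, h.add _ _ m.2 (sp (pt w δ) m : MM K u).2] at h3
    have e2 := congrFun h3 x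
    rw [Pi.add_apply] at e2
    have e3 : Φ (sp (pt w δ) m : MM K u).1 x = Φ m.1 (x * (cox (oct G)).simple (pt w δ)) :=
      h.comm m.1 m.2 (pt w δ) hw x
    rw [e3] at e2
    exact eq_neg_of_add_eq_zero_right e2
  exact inj PSPEC.spec _ (oct G) K R u (LL G ρ) Y E (pt w true) (pt w false) (Φ m.1) hR h.good hw hw (pt_ne w) hna
    (h.map m.1 m.2) (key true h1) (key false h2)

/-- **Exactness** in the degrees above the Leray number. -/
theorem exact_cv (hR : Rg K u) {i : ℕ} (hE : Ex G univ (NN (sp : V ×ₗ Bool → MM K u →ₗ[ℝ] MM K u)) i) :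
    Hv (oct G) Set.univ (InM K u Set.univ ⊥) i := by
  classical
  intro c hc h0
  obtain ⟨c', hc'⟩ : ∃ c' : Finset (V ×ₗ Bool) → MM K u, ∀ T, (c' T).1 = c T := ⟨fun T => ⟨c T, hc.mem T⟩, fun T => rfl⟩
  have hbd : ∀ (a : Finset (V ×ₗ Bool) → MM K u) (b : Finset (V ×ₗ Bool) → W (oct G) → R), (∀ T, (a T).1 = b T) →
      ∀ T, (bd ℝ a T).1 = bdf (oct G) b T := by
    intro a b hab T
    rw [bd_apply]
    funext w
    unfold bdf
    rw [Submodule.coe_sum, Finset.sum_apply]
    refine sum_congr rfl fun p _ => ?_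
    rw [← hab]
    rfl
  have hch : ChO G (sp : V ×ₗ Bool → MM K u →ₗ[ℝ] MM K u) i c' := by
    refine ⟨fun T hT => ?_, fun T p hp => ?_⟩
    · by_contra h1
      have h2 : c T = 0 := hc.supp T fun h3 => h1 ⟨h3.1, h3.2.2⟩
      exact hT (Subtype.ext ((hc' T).trans h2))
    · apply Subtype.ext
      funext w
      have h1 : (sp p (c' T) : MM K u).1 w = (c' T).1 (w * (cox (oct G)).simple p) := rfl
      have h2 : (-(c' T) : MM K u).1 w = -((c' T).1 w) := rfl
      rw [h1, h2, hc']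
      exact hc.anti T p hp w
  have h00 : bd ℝ c' = 0 := by
    funext T
    apply Subtype.ext
    rw [hbd c' c hc' T, h0]
    rfl
  obtain ⟨e, he, he0⟩ := exact_oct sp_inv (sp_reg hR) hE hch h00
  refine ⟨fun T => (e T).1, ⟨fun T hT => ?_, fun T => (e T).2, fun T p hp w => ?_⟩, ?_⟩
  · by_contra h1
    have h2 : e T ≠ 0 := fun h3 => h1 (by rw [h3]; rfl)
    exact hT ⟨(he.supp T h2).1, Set.subset_univ _, (he.supp T h2).2⟩
  · have h1 := congrArg Subtype.val (he.anti T p hp)
    exact congrFun h1 w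
  · funext T
    rw [← hbd e _ (fun T => rfl) T, he0, hc']

end

end Pool.Agent.V5helper74.LR
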