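import Pool.Agent.V5helper74.LR.Tors
import Pool.Agent.V5helper75.LR.Act
import Pool.Agent.V5helper75.BR.Abs
import Pool.Agent.V5helper75.BR.Up

/-!
# Project LR: all the subgroups of all the groups commensurable with a right-angled Artin group
-/

set_option autoImplicit false
set_option linter.unusedSectionVars false

noncomputable section

namespace Pool.Agent.V5helper74.LR

open Pool.Agent.W907.SG Pool.Agent.W461.SGN Pool.Agent.N496.LT Pool.Agent.Helper655.VN Pool.Agent.RK
open Pool.Agent.N504.RS Pool.Agent.R782.Bal Pool.Agent.W907.SM Pool.Agent.N496.CV Pool.Agent.V5helper75.VO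
open Pool.Agent.R703.MO (HomZero)
open Pool.Agent.V5helper75.BR (dj map_fin comap_fin)
open Pool.Agent.V5helper75.BK (Raag)

attribute [local instance] VN831.bcFunctor_additive VN831.viaAdd VN831.viaMod V7N.bcF_additive

section

variable {V : Type} [Fintype V] [LinearOrder V] (G : SimpleGraph V)

/-- A subgroup of finite index which embeds in the right-angled Artin group of `G` has a subgroup of finite index which
embeds in the torsion free subgroup of `W (oct G)`. -/
theorem emb_ker {E : Type} [Group E] (H : Subgroup E) (hH : H.FiniteIndex) (b0 : H →* Raag G)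
    (hb0 : Function.Injective b0) : ∃ F : Subgroup E, F.FiniteIndex ∧ ∃ μ : F →* W (oct G), Function.Injective μ ∧
      ∀ x, μ x ∈ (th (oct G)).ker := by
  obtain ⟨E0, _, f, p, hf, hp, f1, p1⟩ := dj G
  let b : H →* E0 := f.comp b0
  have hb : Function.Injective b := hf.comp hb0
  let N : Subgroup E0 := ((th (oct G)).ker).map p
  have hN : N.FiniteIndex := map_fin p hp p1 _ inferInstance
  have hP : (N.comap b).FiniteIndex := comap_fin _ _ hN
  have hF : ((N.comap b).map H.subtype).FiniteIndex :=
    map_fin H.subtype H.subtype_injective (by rw [Subgroup.range_subtype]; exact hH) _ hP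
  let a1 : (N.comap b) ≃* (N.comap b).map H.subtype := (N.comap b).equivMapOfInjective H.subtype H.subtype_injective
  let a2 : (th (oct G)).ker ≃* N := ((th (oct G)).ker).equivMapOfInjective p hp
  let g : (N.comap b) →* N :=
    { toFun := fun x => ⟨b x.1, x.2⟩
      map_one' := Subtype.ext (map_one b)
      map_mul' := fun x y => Subtype.ext (map_mul b _ _) }
  have hg : Function.Injective g := fun x y hxy => Subtype.ext (hb (congrArg Subtype.val hxy))
  refine ⟨_, hF, ((th (oct G)).ker.subtype.comp a2.symm.toMonoidHom).comp (g.comp a1.symm.toMonoidHom), ?_, ?_⟩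
  · exact ((th (oct G)).ker.subtype_injective.comp a2.symm.injective).comp (hg.comp a1.symm.injective)
  · intro x
    exact (a2.symm (g (a1.symm x))).2

/-- **The groups which virtually embed in a right-angled Artin group.** -/
theorem betti_emb {d : ℕ} (hL : ∀ (A : Set V) (i : ℕ), d < i → HomZero G A i) {E : Type} [Group E]
    (H : Subgroup E) (hH : H.FiniteIndex) (b0 : H →* Raag G) (hb0 : Function.Injective b0) (i : ℕ) (hi : d < i) :
    HasL2Betti E i 0 := by
  obtain ⟨F, hF, μ, hμ, hk⟩ := emb_ker G H hH b0 hb0
  let a : F ≃* μ.range := MonoidHom.ofInjective hμ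
  have hK : μ.range ≤ (th (oct G)).ker := by
    rintro _ ⟨x, rfl⟩
    exact hk _
  refine Pool.Agent.V5helper75.BR.up (F.subtype.comp a.symm.toMonoidHom)
    (F.subtype_injective.comp a.symm.injective) ?_ (hasL2_leray_tors G hL μ.range hK i hi)
  rw [MonoidHom.range_comp, MonoidHom.range_eq_top.2 a.symm.surjective, ← MonoidHom.range_eq_map, F.range_subtype]
  exact hF

/-- proper actions -/
theorem leray_act {E : Type} [Group E] (H : Subgroup E) (H' : Subgroup (Raag G)) (e : H ≃* H')
    (hH' : H'.FiniteIndex) {X : Type} [TopologicalSpace X] [MulAction E X] [ContinuousConstSMul E X]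
    [ProperlyDiscontinuousSMul E X] {n : ℕ} (ex : X × X ≃ₜ (Fin (2 * n) → ℝ)) (A : Set V) {i : ℕ} (hi : n < 2 * i) :
    HomZero G A i := by
  let κ : H' →* E := H.subtype.comp e.symm.toMonoidHom
  have hκ : Function.Injective κ := H.subtype_injective.comp e.symm.injective
  let _ : MulAction H' X := MulAction.compHom X κ
  have a1 : ContinuousConstSMul H' X := ⟨fun k => continuous_const_smul (κ k)⟩
  have a2 : ProperlyDiscontinuousSMul H' X := by
    refine ⟨fun {A B} hA hB => ?_⟩
    have h := ProperlyDiscontinuousSMul.finite_disjoint_inter_image (Γ := E) hA hB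
    exact h.preimage (f := κ) hκ.injOn
  exact (Pool.Agent.V5helper75.LR.act_raag G H' hH' ex hi A).2

end

end Pool.Agent.V5helper74.LR
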