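import Pool.Agent.V5helper74.LR.Coef
import Pool.Agent.V5helper74.LR.Base
import Pool.Agent.N496.CV.All
import Pool.Agent.N496.CV.L2Pf

/-!
# Project LR: the `L²`-Betti numbers of the subgroups vanish above the Leray number
-/

set_option autoImplicit false
set_option linter.unusedSectionVars false

noncomputable section

namespace Pool.Agent.V5helper74.LR

open Pool.Agent.W907.SG Pool.Agent.W461.SGN Pool.Agent.N496.LT Pool.Agent.Helper655.VN Pool.Agent.RK
open Pool.Agent.N504.RS Pool.Agent.R782.Bal Pool.Agent.W907.SM Pool.Agent.N496.CV Pool.Agent.V5helper75.VO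
open Pool.Agent.R703.MO (HomZero)

attribute [local instance] VN831.bcFunctor_additive VN831.viaAdd VN831.viaMod

/-- **The main theorem.** -/
theorem l2_leray {V : Type} [Fintype V] [LinearOrder V] (G : SimpleGraph V) {d : ℕ}
    (hL : ∀ (A : Set V) (i : ℕ), d < i → HomZero G A i) (K : Subgroup (W (oct G))) (hK : K ≤ (th (oct G)).ker)
    (i : ℕ) (hi : d < i) : VN831.l2Betti K i = 0 := by
  classical
  obtain ⟨n, rfl⟩ : ∃ n, i = n + 1 := ⟨i - 1, by omega⟩
  have hfin := final (res (dac len) CB.conv)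
  refine hfin (V ×ₗ Bool) (oct G) K n hK fun v hv hv0 => ?_
  obtain ⟨U, hU, ι, hloc⟩ := Pool.Agent.RK.LocEx.loc_exists (vn_NG (G := K))
  have htf : ∀ (k : K) (n : ℕ), 0 < n → k ^ n = 1 → k = 1 := by
    intro k m hm hk
    apply Subtype.ext
    exact tf (V ×ₗ Bool) (oct G) k.1 (hK k.2) m hm (by
      have := congrArg Subtype.val hk
      simpa using this)
  obtain ⟨h2, hinv⟩ := ru K U ι hloc htf
  obtain ⟨u, hu⟩ : ∃ u : K →* U, ∀ h, u h = ι (canL h) := ⟨(ι : NG K →* U).comp canL, fun h => rfl⟩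
  have hRg : Rg K u := ⟨htf, h2, fun h hh => by rw [hu]; exact hinv h hh⟩
  let φ : ℝ →+* U := ι.comp ((algebraMap ℂ (NG K)).comp (algebraMap ℝ ℂ))
  letI : Module ℝ U := Module.compHom U φ
  haveI : IsScalarTower ℝ U U := ⟨fun r x y => by
    show φ r * x * y = φ r * (x * y)
    rw [mul_assoc]⟩
  have hH : Hv (oct G) Set.univ (InM K u Set.univ ⊥) (n + 1) :=
    exact_cv hRg (leray_hom hL _ _ (dis sp_inv (sp_reg hRg)) (n + 1) hi)
  obtain ⟨Ψ, p1, p2, p3, p4, p5, p6⟩ := CB.conv (V ×ₗ Bool) (oct G) K U u hK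
  have hv' : FV K u (n + 1) (fun i g => ι (v i g)) := by
    refine ⟨fun i hi => ?_, fun i h g g' hg => ?_, ?_⟩
    · funext g
      rw [hv.deg i hi]
      exact map_zero ι
    · rw [hv.eqK i h g g' hg, map_mul, hu]
    · obtain ⟨S, hS⟩ := hv.fin
      refine ⟨S, fun i g hg => hS i g fun h0 => hg (by rw [h0, map_zero])⟩
  have hz : bdf (oct G) (Ψ (fun i g => ι (v i g))) = 0 := by
    rw [← p5 (n + 1) _ hv', mulD_map, hv0]
    have h1 : Ψ 0 = 0 := by
      have := p4 0 0
      rw [add_zero] at this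
      exact (left_eq_add.1 this)
    have h3 : (fun (i : (davis (oct G)).ι) (g : (th (oct G)).ker) =>
        ι ((0 : (davis (oct G)).ι → (th (oct G)).ker → NG K) i g)) = 0 := by
      funext i g
      exact map_zero ι
    rw [h3, h1]
  obtain ⟨e', he', hbe'⟩ := hH _ (p1 (n + 1) _ hv') hz
  obtain ⟨e2, he2, rfl⟩ := p2 (n + 2) e' he'
  rw [← p5 (n + 2) e2 he2] at hbe'
  have hD2 := p3 hbe'
  -- clear the denominators
  obtain ⟨S, hS⟩ := he2.fin
  obtain ⟨s, hs, hx⟩ := common_denominator hloc (fun a b ha hb => Pool.Agent.RK.Nz.nz_mul a b ha hb)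
    (Finset.univ ×ˢ S : Finset ((davis (oct G)).ι × (th (oct G)).ker)) (fun a => e2 a.1 a.2)
  have hall : ∀ i g, ∃ x : NG K, ι s * e2 i g = ι x := by
    intro i g
    by_cases h0 : e2 i g = 0
    · exact ⟨0, by rw [h0, mul_zero, map_zero]⟩
    · obtain ⟨h, x, hxS, hgx⟩ := hS i g h0
      obtain ⟨y, hy⟩ := hx (i, x) (Finset.mem_product.2 ⟨Finset.mem_univ _, hxS⟩)
      refine ⟨y * canL h⁻¹, ?_⟩
      rw [he2.eqK i h x g hgx, ← mul_assoc, hy, map_mul, hu]
  choose e he using hall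
  refine ⟨s, hs, e, ⟨fun i hi => ?_, fun i h g g' hg => ?_, ⟨S, fun i g hg => hS i g fun h0 => hg ?_⟩⟩, ?_⟩
  · funext g
    apply hloc.inj
    rw [← he, he2.deg i hi]
    simp
  · apply hloc.inj
    rw [← he, he2.eqK i h g g' hg, ← mul_assoc, he, map_mul, hu]
  · apply hloc.inj
    rw [← he, h0, mul_zero, map_zero]
  · have h3 : mulD (fun i g => ι (e i g)) = fun i g => ι (s * v i g) := by
      have h4 : (fun i g => ι (e i g)) = fun i g => ι s * e2 i g := by
        funext i g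
        rw [he]
      rw [h4, mulD_mul, hD2]
      funext i g
      rw [map_mul]
    rw [mulD_map] at h3
    funext i g
    apply hloc.inj
    exact congrFun (congrFun h3 i) g

theorem hasL2_leray {V : Type} [Fintype V] [LinearOrder V] (G : SimpleGraph V) {d : ℕ}
    (hL : ∀ (A : Set V) (i : ℕ), d < i → HomZero G A i) (K : Subgroup (W (oct G))) (hK : K ≤ (th (oct G)).ker)
    (i : ℕ) (hi : d < i) : HasL2Betti K i 0 := by
  have h := hasL2Betti K i
  rw [l2_leray G hL K hK i hi] at h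
  exact h

end Pool.Agent.V5helper74.LR
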