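import Pool.Agent.V5helper74.LR.Alg
import Pool.Agent.V5helper75.VO.Cyc

/-!
# Project LR: commuting involutions over the octahedralization of a graph
-/

set_option autoImplicit false
set_option linter.unusedSectionVars false

namespace Pool.Agent.V5helper74.LR

open Finset Pool.Agent.W907.SG Pool.Agent.V5helper75.VO

variable {V : Type} [Fintype V] [LinearOrder V] {G : SimpleGraph V}

/-- the first coordinate -/
def fs (p : V ×ₗ Bool) : V := (ofLex p).1

/-- the vertex `(v, δ)` -/
def pt (v : V) (δ : Bool) : V ×ₗ Bool := toLex (v, δ)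

theorem fs_pt (v : V) (δ : Bool) : fs (pt v δ) = v := rfl

theorem pt_cases (p : V ×ₗ Bool) : p = pt (fs p) true ∨ p = pt (fs p) false := by
  obtain ⟨⟨v, δ⟩, rfl⟩ := toLex.surjective p
  cases δ
  · exact Or.inr rfl
  · exact Or.inl rfl

theorem pt_ne (v : V) : pt v true ≠ pt v false := by
  intro h
  have h1 : true = false := congrArg (fun p : V ×ₗ Bool => (ofLex p).2) h
  exact Bool.noConfusion h1

theorem oct_adj {p q : V ×ₗ Bool} : (oct G).Adj p q ↔ G.Adj (fs p) (fs q) := Iff.rfl

/-- the sets of vertices over `τ` -/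
def TT (τ : Finset V) : Finset (Finset (V ×ₗ Bool)) :=
  univ.filter fun T => T.image fs = τ ∧ T.card = τ.card

theorem mem_TT {τ : Finset V} {T : Finset (V ×ₗ Bool)} : T ∈ TT τ ↔ T.image fs = τ ∧ T.card = τ.card := by
  simp [TT]

theorem TT_fs {τ : Finset V} {T : Finset (V ×ₗ Bool)} (h : T ∈ TT τ) {p : V ×ₗ Bool} (hp : p ∈ T) : fs p ∈ τ := by
  rw [← (mem_TT.1 h).1]
  exact mem_image_of_mem _ hp

theorem TT_inj {τ : Finset V} {T : Finset (V ×ₗ Bool)} (h : T ∈ TT τ) : Set.InjOn fs (T : Set (V ×ₗ Bool)) := by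
  rw [← card_image_iff, (mem_TT.1 h).1, (mem_TT.1 h).2]

theorem TT_ex {τ : Finset V} {T : Finset (V ×ₗ Bool)} (h : T ∈ TT τ) {v : V} (hv : v ∈ τ) : ∃ p ∈ T, fs p = v := by
  rw [← (mem_TT.1 h).1] at hv
  exact mem_image.1 hv

theorem TT_clique {τ : Finset V} {T : Finset (V ×ₗ Bool)} (h : T ∈ TT τ) (hτ : G.IsClique (τ : Set V)) :
    (oct G).IsClique (T : Set (V ×ₗ Bool)) := fun _ hp _ hq hpq =>
  hτ (TT_fs h hp) (TT_fs h hq) fun e => hpq (TT_inj h hp hq e)

theorem clique_TT {T : Finset (V ×ₗ Bool)} (h : (oct G).IsClique (T : Set (V ×ₗ Bool))) : T ∈ TT (T.image fs) := by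
  rw [mem_TT]
  refine ⟨rfl, (card_image_of_injOn fun p hp q hq hpq => ?_).symm⟩
  by_contra hne
  exact (G.ne_of_adj (h hp hq hne)) hpq

theorem clique_image {T : Finset (V ×ₗ Bool)} (h : (oct G).IsClique (T : Set (V ×ₗ Bool))) :
    G.IsClique ((T.image fs : Finset V) : Set V) := by
  intro a ha b hb hab
  obtain ⟨p, hp, rfl⟩ := mem_image.1 ha
  obtain ⟨q, hq, rfl⟩ := mem_image.1 hb
  exact h hp hq fun e => hab (congrArg fs e)

theorem TT_empty : TT (∅ : Finset V) = {∅} := by
  ext T
  rw [mem_TT, mem_singleton, image_eq_empty]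
  constructor
  · exact fun h => h.1
  · rintro rfl
    exact ⟨rfl, rfl⟩

theorem pt_notMem {τ : Finset V} {w : V} (hw : w ∉ τ) {T : Finset (V ×ₗ Bool)} (hT : T ∈ TT τ) (δ : Bool) :
    pt w δ ∉ T := fun h => hw (TT_fs hT h)

theorem insert_TT {τ : Finset V} {w : V} (hw : w ∉ τ) {T : Finset (V ×ₗ Bool)} (hT : T ∈ TT τ) (δ : Bool) :
    insert (pt w δ) T ∈ TT (insert w τ) := by
  rw [mem_TT, image_insert, fs_pt, (mem_TT.1 hT).1, card_insert_of_notMem (pt_notMem hw hT δ),
    card_insert_of_notMem hw, (mem_TT.1 hT).2]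
  exact ⟨rfl, rfl⟩

theorem TT_insert_cases {τ : Finset V} {w : V} (hw : w ∉ τ) {U : Finset (V ×ₗ Bool)} (hU : U ∈ TT (insert w τ)) :
    ∃ T ∈ TT τ, U = insert (pt w true) T ∨ U = insert (pt w false) T := by
  obtain ⟨p, hp, hpw⟩ := TT_ex hU (mem_insert_self w τ)
  refine ⟨U.erase p, mem_TT.2 ⟨?_, ?_⟩, ?_⟩
  · ext v
    rw [mem_image]
    constructor
    · rintro ⟨q, hq, rfl⟩
      have h1 := TT_fs hU (mem_of_mem_erase hq)
      rcases mem_insert.1 h1 with h2 | h2
      · exact absurd (TT_inj hU (mem_of_mem_erase hq) hp (h2.trans hpw.symm)) (ne_of_mem_erase hq)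
      · exact h2
    · intro hv
      obtain ⟨q, hq, hqv⟩ := TT_ex hU (mem_insert_of_mem hv)
      refine ⟨q, mem_erase.2 ⟨?_, hq⟩, hqv⟩
      rintro rfl
      exact hw (by rw [← hpw, hqv]; exact hv)
  · rw [card_erase_of_mem hp, (mem_TT.1 hU).2, card_insert_of_notMem hw]
    rfl
  · rcases pt_cases p with h | h
    · rw [hpw] at h
      left
      rw [← h, insert_erase hp]
    · rw [hpw] at h
      right
      rw [← h, insert_erase hp]

theorem sum_TT {M : Type} [AddCommGroup M] {τ : Finset V} {w : V} (hw : w ∉ τ) (f : Finset (V ×ₗ Bool) → M) :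
    ∑ T ∈ TT (insert w τ), f T = ∑ T ∈ TT τ, (f (insert (pt w true) T) + f (insert (pt w false) T)) := by
  have h1 : TT (insert w τ) = (TT τ).image (insert (pt w true)) ∪ (TT τ).image (insert (pt w false)) := by
    ext U
    rw [mem_union, mem_image, mem_image]
    constructor
    · intro hU
      obtain ⟨T, hT, h | h⟩ := TT_insert_cases hw hU
      · exact Or.inl ⟨T, hT, h.symm⟩
      · exact Or.inr ⟨T, hT, h.symm⟩
    · rintro (⟨T, hT, rfl⟩ | ⟨T, hT, rfl⟩)
      · exact insert_TT hw hT _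
      · exact insert_TT hw hT _
  have hinj : ∀ δ, Set.InjOn (insert (pt w δ)) ((TT τ : Finset (Finset (V ×ₗ Bool))) :
      Set (Finset (V ×ₗ Bool))) := by
    intro δ T hT T' hT' h
    have h2 : (insert (pt w δ) T).erase (pt w δ) = (insert (pt w δ) T').erase (pt w δ) :=
      congrArg (fun U : Finset (V ×ₗ Bool) => U.erase (pt w δ)) h
    rwa [erase_insert (pt_notMem hw hT δ), erase_insert (pt_notMem hw hT' δ)] at h2
  rw [h1, sum_union, sum_image (hinj true), sum_image (hinj false), sum_add_distrib]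
  rw [disjoint_left]
  rintro U h2 h3
  obtain ⟨T, hT, rfl⟩ := mem_image.1 h2
  obtain ⟨T', hT', h4⟩ := mem_image.1 h3
  have h5 : pt w true ∈ insert (pt w false) T' := by rw [h4]; exact mem_insert_self _ _
  rcases mem_insert.1 h5 with h6 | h6
  · exact pt_ne w h6
  · exact pt_notMem hw hT' true h6

section inv

variable {M : Type} [AddCommGroup M] [Module ℝ M] (G) (s : V ×ₗ Bool → M →ₗ[ℝ] M)

/-- involutions, commuting for adjacent vertices -/
structure Inv : Prop where
  inv : ∀ p m, s p (s p m) = m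
  comm : ∀ p q, G.Adj (fs p) (fs q) → ∀ m, s p (s q m) = s q (s p m)

/-- the antiinvariants -/
def anti (p : V ×ₗ Bool) : Submodule ℝ M := LinearMap.ker (LinearMap.id + s p)

/-- the augmentation part for the infinite dihedral group -/
def NN (v : V) : Submodule ℝ M := anti s (pt v true) ⊔ anti s (pt v false)

/-- there are no antiinvariants of the infinite dihedral groups in the coinvariants of the others -/
def Reg : Prop := ∀ ρ : Finset V, G.IsClique (ρ : Set V) → ∀ w : V, (∀ v ∈ ρ, G.Adj w v) → ∀ m : M,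
  m + s (pt w true) m ∈ cup (NN s) ρ → m + s (pt w false) m ∈ cup (NN s) ρ → m ∈ cup (NN s) ρ

variable {G s}

theorem mem_anti {p : V ×ₗ Bool} {m : M} : m ∈ anti s p ↔ s p m = -m := by
  unfold anti
  rw [LinearMap.mem_ker, LinearMap.add_apply, LinearMap.id_apply, add_comm, add_eq_zero_iff_eq_neg]

theorem anti_le (p : V ×ₗ Bool) : anti s p ≤ NN s (fs p) := by
  rcases pt_cases p with h | h
  · rw [h]; exact le_sup_left
  · rw [h]; exact le_sup_right

theorem NN_stable (h : Inv G s) {p : V ×ₗ Bool} {v : V} (hp : G.Adj (fs p) v) {m : M} (hm : m ∈ NN s v) :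
    s p m ∈ NN s v := by
  obtain ⟨a, ha, b, hb, rfl⟩ := Submodule.mem_sup.1 hm
  rw [mem_anti] at ha hb
  rw [map_add]
  refine Submodule.add_mem _ (Submodule.mem_sup_left (mem_anti.2 ?_)) (Submodule.mem_sup_right (mem_anti.2 ?_))
  · rw [← h.comm p (pt v true) hp, ha, map_neg]
  · rw [← h.comm p (pt v false) hp, hb, map_neg]

theorem cup_stable (h : Inv G s) {p : V ×ₗ Bool} {ρ : Finset V} (hp : ∀ v ∈ ρ, G.Adj (fs p) v) {m : M}
    (hm : m ∈ cup (NN s) ρ) : s p m ∈ cup (NN s) ρ := by
  have h1 : cup (NN s) ρ ≤ (cup (NN s) ρ).comap (s p) :=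
    cup_le fun v hv x hx => le_cup hv (NN_stable h (hp v hv) hx)
  exact h1 hm

theorem exists_proj (h : Inv G s) (T : Finset (V ×ₗ Bool)) (hT : (oct G).IsClique (T : Set (V ×ₗ Bool))) :
    ∃ π : M →ₗ[ℝ] M, (∀ m, ∀ p ∈ T, s p (π m) = -π m) ∧ (∀ m, (∀ p ∈ T, s p m = -m) → π m = m) ∧
      (∀ q, (∀ p ∈ T, G.Adj (fs q) (fs p)) → ∀ m, s q (π m) = π (s q m)) ∧
      (∀ R : Submodule ℝ M, (∀ p ∈ T, ∀ r ∈ R, s p r ∈ R) → ∀ r ∈ R, π r ∈ R) := by
  induction T using Finset.induction_on with
  | empty => exact ⟨LinearMap.id, by simp, fun m _ => rfl, fun q _ m => rfl, fun R _ r hr => hr⟩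
  | insert p T hp ih =>
    obtain ⟨π, h1, h2, h3, h4⟩ := ih (hT.subset (by simp))
    have hadj : ∀ q ∈ T, G.Adj (fs p) (fs q) := fun q hq =>
      hT (by simp) (by simp [hq]) fun e => hp (e ▸ hq)
    refine ⟨π ∘ₗ ((1 / 2 : ℝ) • (LinearMap.id - s p)), ?_, ?_, ?_, ?_⟩
    · intro m q hq
      rcases mem_insert.1 hq with rfl | hq
      · rw [LinearMap.comp_apply, h3 q hadj, ← map_neg]
        congr 1
        simp only [LinearMap.smul_apply, LinearMap.sub_apply, LinearMap.id_apply, map_smul, map_sub, h.inv]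
        rw [← smul_neg, neg_sub]
      · exact h1 _ q hq
    · intro m hm
      rw [LinearMap.comp_apply]
      have h5 : ((1 / 2 : ℝ) • (LinearMap.id - s p) : M →ₗ[ℝ] M) m = m := by
        simp only [LinearMap.smul_apply, LinearMap.sub_apply, LinearMap.id_apply]
        rw [hm p (mem_insert_self p T), sub_neg_eq_add, ← two_smul ℝ m, smul_smul]
        norm_num
      rw [h5]
      exact h2 m fun q hq => hm q (mem_insert_of_mem hq)
    · intro q hq m
      rw [LinearMap.comp_apply, LinearMap.comp_apply, h3 q fun t ht => hq t (mem_insert_of_mem ht)]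
      congr 1
      simp only [LinearMap.smul_apply, LinearMap.sub_apply, LinearMap.id_apply, map_smul, map_sub]
      rw [h.comm q p (hq p (mem_insert_self p T))]
    · intro R hR r hr
      rw [LinearMap.comp_apply]
      refine h4 R (fun q hq => hR q (mem_insert_of_mem hq)) _ ?_
      simp only [LinearMap.smul_apply, LinearMap.sub_apply, LinearMap.id_apply]
      exact R.smul_mem _ (R.sub_mem hr (hR p (mem_insert_self p T) r hr))

theorem cliq_insert {w : V} {τ ρ : Finset V} (hc : G.IsClique ((insert w τ ∪ ρ : Finset V) : Set V)) :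
    G.IsClique ((τ ∪ ρ : Finset V) : Set V) ∧ G.IsClique ((τ ∪ insert w ρ : Finset V) : Set V) ∧
      G.IsClique (ρ : Set V) := by
  refine ⟨hc.subset ?_, hc.subset ?_, hc.subset ?_⟩
  · intro x hx
    have hx' : x ∈ τ ∪ ρ := hx
    show x ∈ insert w τ ∪ ρ
    simp only [mem_union, mem_insert] at hx' ⊢
    tauto
  · intro x hx
    have hx' : x ∈ τ ∪ insert w ρ := hx
    show x ∈ insert w τ ∪ ρ
    simp only [mem_union, mem_insert] at hx' ⊢
    tauto
  · intro x hx
    have hx' : x ∈ ρ := hx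
    show x ∈ insert w τ ∪ ρ
    simp only [mem_union, mem_insert]
    tauto

/-- the sum of the antiinvariants is direct -/
theorem direct (h : Inv G s) (hr : Reg G s) (τ : Finset V) : ∀ ρ : Finset V, Disjoint τ ρ →
    G.IsClique ((τ ∪ ρ : Finset V) : Set V) → ∀ x : Finset (V ×ₗ Bool) → M,
    (∀ T ∈ TT τ, ∀ p ∈ T, x T + s p (x T) ∈ cup (NN s) ρ) → ∑ T ∈ TT τ, x T ∈ cup (NN s) ρ →
    ∀ T ∈ TT τ, x T ∈ cup (NN s) ρ := by
  induction τ using Finset.induction_on with
  | empty =>
    intro ρ _ _ x _ hs T hT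
    rw [TT_empty, sum_singleton] at hs
    rw [TT_empty, mem_singleton] at hT
    rw [hT]
    exact hs
  | insert w τ hw ih =>
    intro ρ hd hc x hx hs
    obtain ⟨c1, c2, c3⟩ := cliq_insert hc
    rw [disjoint_insert_left] at hd
    have hadj : ∀ v ∈ ρ, G.Adj w v := fun v hv =>
      hc (by simp) (by simp [hv]) fun e => hd.1 (e ▸ hv)
    rw [sum_TT hw] at hs
    have h1 := ih ρ hd.2 c1 (fun T => x (insert (pt w true) T) + x (insert (pt w false) T)) (fun T hT p hp => by
      have a1 := hx _ (insert_TT hw hT true) p (mem_insert_of_mem hp)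
      have a2 := hx _ (insert_TT hw hT false) p (mem_insert_of_mem hp)
      have := Submodule.add_mem _ a1 a2
      rw [map_add]
      convert this using 1
      abel) hs
    have h2 : ∀ T ∈ TT τ, x (insert (pt w true) T) ∈ cup (NN s) ρ ∧ x (insert (pt w false) T) ∈ cup (NN s) ρ := by
      intro T hT
      have b0 := h1 T hT
      have b1 := hx _ (insert_TT hw hT true) _ (mem_insert_self _ _)
      have b2 := hx _ (insert_TT hw hT false) _ (mem_insert_self _ _)
      have b3 : s (pt w false) (x (insert (pt w true) T) + x (insert (pt w false) T)) ∈ cup (NN s) ρ :=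
        cup_stable h hadj b0
      have b4 : x (insert (pt w true) T) ∈ cup (NN s) ρ := by
        refine hr ρ c3 w hadj _ b1 ?_
        have := Submodule.sub_mem _ (Submodule.add_mem _ b0 b3) b2
        rw [map_add] at this
        convert this using 1
        abel
      refine ⟨b4, ?_⟩
      have := Submodule.sub_mem _ b0 b4
      convert this using 1
      abel
    intro U hU
    obtain ⟨T, hT, rfl | rfl⟩ := TT_insert_cases hw hU
    · exact (h2 T hT).1
    · exact (h2 T hT).2

/-- decomposition into antiinvariants -/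
theorem star (h : Inv G s) (hr : Reg G s) (τ : Finset V) : ∀ ρ : Finset V, Disjoint τ ρ →
    G.IsClique ((τ ∪ ρ : Finset V) : Set V) → ∀ x : M, (∀ v ∈ τ, x ∈ NN s v ⊔ cup (NN s) ρ) →
    ∃ y : Finset (V ×ₗ Bool) → M, (∀ T ∈ TT τ, ∀ p ∈ T, s p (y T) = -y T) ∧
      x - ∑ T ∈ TT τ, y T ∈ cup (NN s) ρ := by
  induction τ using Finset.induction_on with
  | empty =>
    intro ρ _ _ x _
    refine ⟨fun _ => x, fun T hT p hp => ?_, ?_⟩
    · rw [TT_empty, mem_singleton] at hT
      rw [hT] at hp
      exact absurd hp (notMem_empty p)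
    · rw [TT_empty, sum_singleton, sub_self]
      exact zero_mem _
  | insert w τ hw ih =>
    intro ρ hd hc x hx
    obtain ⟨c1, c2, c3⟩ := cliq_insert hc
    rw [disjoint_insert_left] at hd
    obtain ⟨y, hy1, hy2⟩ := ih ρ hd.2 c1 x fun v hv => hx v (mem_insert_of_mem hv)
    have hτ : G.IsClique (τ : Set V) := c1.subset (by simp)
    have hd' : Disjoint τ (insert w ρ) := by
      rw [disjoint_insert_right]
      exact ⟨hw, hd.2⟩
    have hadjρ : ∀ v ∈ ρ, G.Adj w v := fun v hv =>
      hc (by simp) (by simp [hv]) fun e => hd.1 (e ▸ hv)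
    have hadjτ : ∀ v ∈ τ, G.Adj w v := fun v hv =>
      hc (by simp) (by simp [hv]) fun e => hw (e ▸ hv)
    have h1 := direct h hr τ (insert w ρ) hd' c2 y (fun T hT p hp => by
      rw [hy1 T hT p hp, add_neg_cancel]
      exact zero_mem _) (by
      rw [cup_insert]
      have h2 := hx w (mem_insert_self w τ)
      have h3 : ∑ T ∈ TT τ, y T = x - (x - ∑ T ∈ TT τ, y T) := by abel
      rw [h3]
      exact Submodule.sub_mem _ h2 (Submodule.mem_sup_right hy2))
    have h2 : ∀ T : Finset (V ×ₗ Bool), ∃ a b : M, T ∈ TT τ → (∀ p ∈ T, s p a = -a) ∧ (∀ p ∈ T, s p b = -b) ∧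
        s (pt w true) a = -a ∧ s (pt w false) b = -b ∧ y T - (a + b) ∈ cup (NN s) ρ := by
      intro T
      by_cases hT : T ∈ TT τ
      · have h3 := h1 T hT
        rw [cup_insert] at h3
        obtain ⟨n, hn, r, hr', hnr⟩ := Submodule.mem_sup.1 h3
        obtain ⟨a, ha, b, hb, hab⟩ := Submodule.mem_sup.1 hn
        rw [mem_anti] at ha hb
        obtain ⟨π, p1, p2, p3, p4⟩ := exists_proj h T (TT_clique hT hτ)
        refine ⟨π a, π b, fun _ => ⟨fun p hp => p1 a p hp, fun p hp => p1 b p hp, ?_, ?_, ?_⟩⟩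
        · rw [p3 (pt w true) fun p hp => hadjτ _ (TT_fs hT hp), ha, map_neg]
        · rw [p3 (pt w false) fun p hp => hadjτ _ (TT_fs hT hp), hb, map_neg]
        · have e1 : y T = π (y T) := (p2 _ fun p hp => hy1 T hT p hp).symm
          rw [e1, ← hnr, ← hab, map_add, map_add]
          have e2 : π a + π b + π r - (π a + π b) = π r := by abel
          rw [e2]
          refine p4 _ (fun p hp r hr => cup_stable h (fun v hv => ?_) hr) r hr'
          have hpτ := TT_fs hT hp
          exact c1 (by simp [hpτ]) (by simp [hv]) fun e => (disjoint_left.1 hd.2 hpτ) (e ▸ hv)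
      · exact ⟨0, 0, fun h => absurd h hT⟩
    choose a b hab using h2
    refine ⟨fun U => if pt w true ∈ U then a (U.erase (pt w true)) else b (U.erase (pt w false)), ?_, ?_⟩
    · intro U hU p hp
      obtain ⟨T, hT, rfl | rfl⟩ := TT_insert_cases hw hU
      · simp only
        rw [if_pos (mem_insert_self _ _), erase_insert (pt_notMem hw hT true)]
        rcases mem_insert.1 hp with rfl | hp
        · exact (hab T hT).2.2.1
        · exact (hab T hT).1 p hp
      · simp only
        have e1 : pt w true ∉ insert (pt w false) T := by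
          rw [mem_insert, not_or]
          exact ⟨pt_ne w, pt_notMem hw hT true⟩
        rw [if_neg e1, erase_insert (pt_notMem hw hT false)]
        rcases mem_insert.1 hp with rfl | hp
        · exact (hab T hT).2.2.2.1
        · exact (hab T hT).2.1 p hp
    · rw [sum_TT hw]
      have e2 : ∑ T ∈ TT τ, ((if pt w true ∈ insert (pt w true) T then a ((insert (pt w true) T).erase (pt w true))
          else b ((insert (pt w true) T).erase (pt w false))) +
          (if pt w true ∈ insert (pt w false) T then a ((insert (pt w false) T).erase (pt w true))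
          else b ((insert (pt w false) T).erase (pt w false)))) = ∑ T ∈ TT τ, (a T + b T) := by
        refine sum_congr rfl fun T hT => ?_
        have e1 : pt w true ∉ insert (pt w false) T := by
          rw [mem_insert, not_or]
          exact ⟨pt_ne w, pt_notMem hw hT true⟩
        rw [if_pos (mem_insert_self _ _), erase_insert (pt_notMem hw hT true), if_neg e1,
          erase_insert (pt_notMem hw hT false)]
      rw [e2]
      have e3 : x - ∑ T ∈ TT τ, (a T + b T) = (x - ∑ T ∈ TT τ, y T) + ∑ T ∈ TT τ, (y T - (a T + b T)) := by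
        rw [sum_sub_distrib]
        abel
      rw [e3]
      exact Submodule.add_mem _ hy2 (Submodule.sum_mem _ fun T hT => (hab T hT).2.2.2.2)

/-- the family is distributive -/
theorem dis (h : Inv G s) (hr : Reg G s) : Dis G univ (NN s) := by
  intro σ ρ hd hc _ m hm
  obtain ⟨y, hy1, hy2⟩ := star h hr σ ρ hd hc m hm
  have e : m = ∑ T ∈ TT σ, y T + (m - ∑ T ∈ TT σ, y T) := by abel
  rw [e]
  refine Submodule.add_mem _ (Submodule.mem_sup_left (Submodule.sum_mem _ fun T hT => mem_cap.2 fun v hv => ?_))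
    (Submodule.mem_sup_right hy2)
  obtain ⟨p, hp, rfl⟩ := TT_ex hT hv
  exact anti_le p (mem_anti.2 (hy1 T hT p hp))

end inv

end Pool.Agent.V5helper74.LR
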