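import Pool.Agent.V5helper74.LR.Oct

/-!
# Project LR: the comparison of the chain complexes over the octahedralization and over the graph
-/

set_option autoImplicit false
set_option linter.unusedSectionVars false

namespace Pool.Agent.V5helper74.LR

open Finset Pool.Agent.W907.SG Pool.Agent.V5helper75.VO

variable {V : Type} [Fintype V] [LinearOrder V] {G : SimpleGraph V}
variable {M : Type} [AddCommGroup M] [Module ℝ M] {s : V ×ₗ Bool → M →ₗ[ℝ] M}

/-- the sum over the sets over `τ` -/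
def push (c : Finset (V ×ₗ Bool) → M) (τ : Finset V) : M := ∑ T ∈ TT τ, c T

theorem lt_pt {p : V ×ₗ Bool} {u : V} {δ : Bool} (h : fs p ≠ u) : p < pt u δ ↔ fs p < u := by
  obtain ⟨⟨v, ε⟩, rfl⟩ := toLex.surjective p
  have h' : v ≠ u := h
  show toLex (v, ε) < toLex (u, δ) ↔ v < u
  rw [Prod.Lex.toLex_lt_toLex]
  constructor
  · rintro (h1 | h1)
    · exact h1
    · exact absurd h1.1 h'
  · exact Or.inl

theorem sg_pt {τ : Finset V} {T : Finset (V ×ₗ Bool)} (hT : T ∈ TT τ) {u : V} (hu : u ∉ τ) (δ : Bool) :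
    sg (pt u δ) T = sg u τ := by
  unfold sg
  congr 1
  have h1 : (τ.filter fun w => w < u) = (T.filter fun p => p < pt u δ).image fs := by
    ext w
    rw [mem_filter, mem_image]
    constructor
    · rintro ⟨h1, h2⟩
      obtain ⟨p, hp, rfl⟩ := TT_ex hT h1
      have hne : fs p ≠ u := fun e => hu (by rw [← e]; exact h1)
      exact ⟨p, mem_filter.2 ⟨hp, (lt_pt hne).2 h2⟩, rfl⟩
    · rintro ⟨p, hp, rfl⟩
      obtain ⟨h3, h4⟩ := mem_filter.1 hp
      have h5 := TT_fs hT h3
      have hne : fs p ≠ u := fun e => hu (by rw [← e]; exact h5)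
      exact ⟨h5, (lt_pt hne).1 h4⟩
  rw [h1, card_image_of_injOn]
  exact (TT_inj hT).mono fun p hp => (mem_filter.1 (mem_coe.1 hp)).1

theorem push_bd {c : Finset (V ×ₗ Bool) → M}
    (hc : ∀ T, c T ≠ 0 → (oct G).IsClique (T : Set (V ×ₗ Bool))) : push (bd ℝ c) = bd ℝ (push c) := by
  funext τ
  rw [bd_apply]
  unfold push
  have h1 : ∀ u ∈ τᶜ, sg u τ • ∑ T ∈ TT (insert u τ), c T = ∑ T ∈ TT τ, ∑ δ : Bool,
      sg (pt u δ) T • c (insert (pt u δ) T) := by
    intro u hu
    rw [sum_TT (mem_compl.1 hu), smul_sum]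
    refine sum_congr rfl fun T hT => ?_
    rw [Fintype.sum_bool, sg_pt hT (mem_compl.1 hu), sg_pt hT (mem_compl.1 hu), smul_add]
  rw [sum_congr rfl h1, sum_comm]
  refine sum_congr rfl fun T hT => ?_
  rw [bd_apply]
  have h2 : ∀ p ∈ (Tᶜ : Finset (V ×ₗ Bool)), p ∉ univ.filter (fun p : V ×ₗ Bool => fs p ∉ τ) →
      sg p T • c (insert p T) = 0 := by
    intro p hp hp'
    rw [mem_filter, not_and, not_not] at hp'
    have h3 := hp' (mem_univ p)
    have h4 : c (insert p T) = 0 := by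
      by_contra h5
      have h6 := hc _ h5
      obtain ⟨q, hq, hqp⟩ := TT_ex hT h3
      have h7 : p ≠ q := fun e => (mem_compl.1 hp) (e ▸ hq)
      exact (G.ne_of_adj (h6 (by simp) (by simp [hq]) h7)) hqp.symm
    rw [h4, smul_zero]
  rw [← sum_subset (s₁ := univ.filter (fun p : V ×ₗ Bool => fs p ∉ τ)) (fun p hp => by
    rw [mem_compl]
    intro h3
    exact (mem_filter.1 hp).2 (TT_fs hT h3)) h2, ← sum_product']
  refine sum_nbij' (fun p => ((ofLex p).1, (ofLex p).2)) (fun x => pt x.1 x.2) ?_ ?_ ?_ ?_ ?_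
  · intro p hp
    rw [mem_product, mem_compl]
    exact ⟨(mem_filter.1 hp).2, mem_univ _⟩
  · intro x hx
    rw [mem_product, mem_compl] at hx
    exact mem_filter.2 ⟨mem_univ _, hx.1⟩
  · intro p _; rfl
  · intro x _; rfl
  · intro p _; rfl

/-- chains with antiinvariant coefficients over the octahedralization -/
structure ChO (G : SimpleGraph V) (s : V ×ₗ Bool → M →ₗ[ℝ] M) (i : ℕ) (c : Finset (V ×ₗ Bool) → M) : Prop where
  supp : ∀ T, c T ≠ 0 → (oct G).IsClique (T : Set (V ×ₗ Bool)) ∧ T.card = i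
  anti : ∀ T, ∀ p ∈ T, s p (c T) = -c T

theorem push_ch {i : ℕ} {c : Finset (V ×ₗ Bool) → M} (hc : ChO G s i c) : Ch G univ (NN s) i (push c) where
  supp τ hτ := by
    obtain ⟨T, hT, h1⟩ := exists_ne_zero_of_sum_ne_zero hτ
    obtain ⟨h2, h3⟩ := hc.supp T h1
    have h4 := (mem_TT.1 hT)
    refine ⟨?_, subset_univ _, ?_⟩
    · rw [← h4.1]; exact clique_image h2
    · rw [← h4.2]; exact h3
  mem τ v hv := by
    refine Submodule.sum_mem _ fun T hT => ?_
    obtain ⟨p, hp, rfl⟩ := TT_ex hT hv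
    exact anti_le p (mem_anti.2 (hc.anti T p hp))

theorem push_inj (h : Inv G s) (hr : Reg G s) {i : ℕ} {c : Finset (V ×ₗ Bool) → M} (hc : ChO G s i c)
    (h0 : push c = 0) : c = 0 := by
  funext T
  by_contra h1
  obtain ⟨h2, h3⟩ := hc.supp T h1
  have h4 := direct h hr (T.image fs) ∅ (disjoint_empty_right _) (by
    rw [union_empty]; exact clique_image h2) c (fun T hT p hp => by
    rw [hc.anti T p hp, add_neg_cancel]; exact zero_mem _) (by
    have := congrFun h0 (T.image fs)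
    unfold push at this
    rw [this]
    exact zero_mem _) T (clique_TT h2)
  rw [cup_empty, Submodule.mem_bot] at h4
  exact h1 h4

theorem push_surj (h : Inv G s) (hr : Reg G s) {i : ℕ} {e : Finset V → M} (he : Ch G univ (NN s) i e) :
    ∃ c, ChO G s i c ∧ push c = e := by
  classical
  have h1 : ∀ τ : Finset V, ∃ y : Finset (V ×ₗ Bool) → M, (∀ T ∈ TT τ, ∀ p ∈ T, s p (y T) = -y T) ∧
      (e τ = 0 → y = 0) ∧ ∑ T ∈ TT τ, y T = e τ := by
    intro τ
    by_cases h0 : e τ = 0
    · exact ⟨0, fun T _ p _ => by simp, fun _ => rfl, by simp [h0]⟩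
    · obtain ⟨h2, h3, h4⟩ := he.supp τ h0
      obtain ⟨y, hy1, hy2⟩ := star h hr τ ∅ (disjoint_empty_right _) (by rw [union_empty]; exact h2) (e τ)
        fun v hv => Submodule.mem_sup_left (he.mem τ v hv)
      rw [cup_empty, Submodule.mem_bot, sub_eq_zero] at hy2
      exact ⟨y, hy1, fun h5 => absurd h5 h0, hy2.symm⟩
  choose y hy1 hy2 hy3 using h1
  refine ⟨fun T => if T ∈ TT (T.image fs) then y (T.image fs) T else 0, ⟨fun T hT => ?_, fun T p hp => ?_⟩, ?_⟩
  · split_ifs at hT with h2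
    · have h3 : e (T.image fs) ≠ 0 := fun h4 => hT (by rw [hy2 _ h4]; rfl)
      obtain ⟨h5, -, h6⟩ := he.supp _ h3
      exact ⟨TT_clique h2 h5, by rw [← h6, (mem_TT.1 h2).2]⟩
    · exact absurd rfl hT
  · show s p (if T ∈ TT (T.image fs) then y (T.image fs) T else 0) =
      -(if T ∈ TT (T.image fs) then y (T.image fs) T else 0)
    split_ifs with h2
    · exact hy1 _ T h2 p hp
    · simp
  · funext τ
    rw [← hy3 τ]
    unfold push
    refine sum_congr rfl fun T hT => ?_
    have h2 := (mem_TT.1 hT).1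
    simp only [h2]
    rw [if_pos hT]

/-- **Transfer of exactness.** -/
theorem exact_oct (h : Inv G s) (hr : Reg G s) {i : ℕ} (hE : Ex G univ (NN s) i) {c : Finset (V ×ₗ Bool) → M}
    (hc : ChO G s i c) (h0 : bd ℝ c = 0) : ∃ e, ChO G s (i + 1) e ∧ bd ℝ e = c := by
  obtain ⟨e', he', he0⟩ := hE _ (push_ch hc) (by
    rw [← push_bd fun T hT => (hc.supp T hT).1, h0]
    funext τ
    unfold push
    simp)
  obtain ⟨e, he, rfl⟩ := push_surj h hr he'
  refine ⟨e, he, ?_⟩
  have h1 : ChO G s i (bd ℝ e - c) := by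
    refine ⟨fun T hT => ?_, fun T p hp => ?_⟩
    · by_cases h2 : c T = 0
      · have h3 : bd ℝ e T ≠ 0 := fun h4 => hT (by rw [Pi.sub_apply, h2, h4, sub_zero])
        rw [bd_apply] at h3
        obtain ⟨p, hp, hp'⟩ := exists_ne_zero_of_sum_ne_zero h3
        obtain ⟨h5, h6⟩ := he.supp (insert p T) fun h7 => hp' (by rw [h7, smul_zero])
        refine ⟨h5.subset (by simp), ?_⟩
        rw [card_insert_of_notMem (mem_compl.1 hp)] at h6
        omega
      · exact hc.supp T h2
    · rw [Pi.sub_apply, map_sub, hc.anti T p hp, bd_apply, map_sum]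
      have h2 : ∀ q ∈ (Tᶜ : Finset (V ×ₗ Bool)), s p (sg q T • e (insert q T)) = -(sg q T • e (insert q T)) := by
        intro q _
        rw [map_zsmul, he.anti _ p (mem_insert_of_mem hp), smul_neg]
      rw [sum_congr rfl h2, sum_neg_distrib]
      abel
  have h2 := push_inj h hr h1 (by
    have h3 : push (bd ℝ e - c) = push (bd ℝ e) - push c := by
      funext τ
      unfold push
      simp [sum_sub_distrib]
    rw [h3, push_bd fun T hT => (he.supp T hT).1, he0, sub_self])
  exact sub_eq_zero.1 h2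

end Pool.Agent.V5helper74.LR
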