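import Pool.Agent.V5helper74.LR.Main

/-!
# Project LR: the torsion form

Above the Leray number each class of `Tor_i(N(K), ℤ)` is killed by an injective element of `N(K)`.
-/

set_option autoImplicit false
set_option linter.unusedSectionVars false

noncomputable section

namespace Pool.Agent.V5helper74.LR

open Pool.Agent.W907.SG Pool.Agent.W461.SGN Pool.Agent.N496.LT Pool.Agent.Helper655.VN Pool.Agent.RK
open Pool.Agent.N504.RS Pool.Agent.R782.Bal Pool.Agent.W907.SM Pool.Agent.N496.CV Pool.Agent.V5helper75.VO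
open Pool.Agent.N496.CV.FinAux
open Pool.Agent.R703.MO (HomZero)

attribute [local instance] VN831.bcFunctor_additive VN831.viaAdd VN831.viaMod V7N.bcF_additive

/-- The torsion form of `final`. -/
theorem final_tors (hres : RES) (V : Type) [Fintype V] [LinearOrder V] (G : SimpleGraph V) (K : Subgroup (W G)) (n : ℕ)
    (hK : K ≤ (th G).ker)
    (H : ∀ v, FV K (canL : K →* NG K) (n + 1) v → mulD v = 0 → ∃ s : NG K, Nz s ∧
      ∃ e, FV K (canL : K →* NG K) (n + 2) e ∧ mulD e = fun i g => s * v i g) :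
    ∀ m : VN831.homN K (n + 1), ∃ s : NG K, Nz s ∧ s • m = 0 := by
  classical
  obtain ⟨ε, h1, h2, h3, h4⟩ := hres V G
  let C : V7N.FreeRes (th G).ker := ⟨(davis G).toFree.rank, (davis G).toFree.d, ε, h1, h2, h3, h4⟩
  let i : K →* (th G).ker := Subgroup.inclusion hK
  have hi : Function.Injective i := Subgroup.inclusion_injective hK
  let j := Pool.Agent.Helper277.VN5.jN K
  let cW : (th G).ker →* NG (W G) := (canL : W G →* NG (W G)).comp (th G).ker.subtype
  have hc : ∀ k : K, j (canL k) = cW (i k) := fun k => Pool.Agent.Helper277.VN5.jN_canL K k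
  have hind : VN831.CosetIndep j cW i.range := by
    intro s hs x hx g hg
    let x' : W G → NG K := fun w => if h : w ∈ (th G).ker then x ⟨w, h⟩ else 0
    have hx' : ∀ g : (th G).ker, x' g = x g := fun g => dif_pos g.2
    have h5 := Pool.Agent.Helper277.VN5.jN_indep K (s.map (Function.Embedding.subtype _)) x' ?_ ?_ (g : W G)
      (Finset.mem_map_of_mem _ hg)
    · rw [← hx' g]
      exact h5
    · intro y hy y' hy' hne hmem
      obtain ⟨a, ha, rfl⟩ := Finset.mem_map.1 hy
      obtain ⟨a', ha', rfl⟩ := Finset.mem_map.1 hy'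
      refine hs a ha a' ha' (fun h => hne (by rw [h])) ⟨⟨_, hmem⟩, ?_⟩
      exact Subtype.ext rfl
    · rw [Finset.sum_map, ← hx]
      refine Finset.sum_congr rfl fun g _ => ?_
      show j (x' g) * _ = _
      rw [hx' g]
      rfl
  obtain ⟨f⟩ := V7N.v7_succ C n i hi (canL : K →* NG K) cW j hc hind
  have f' : VN831.homN K (n + 1) ≃ₗ[NG K] VN831.HR j cW (((davis G).toFree.d (n + 1)).map (V7N.evM cW))
    (((davis G).toFree.d n).map (V7N.evM cW)) := f
  intro m0
  suffices h0 : ∃ s, Nz s ∧ s • (f' m0) = 0 by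
    obtain ⟨s, hs, h0⟩ := h0
    refine ⟨s, hs, f'.injective ?_⟩
    rw [map_smul, h0, map_zero]
  refine tors hi hc hind _ _ Nz (fun v hv => ?_) (f' m0)
  let v' : (davis G).ι → (th G).ker → NG K := fun x => if h : ∃ k, cell (davis G) (n + 1) k = x then (v h.choose).1
    else 0
  have hv1 : ∀ k, v' (cell (davis G) (n + 1) k) = (v k).1 := by
    intro k
    have h : ∃ k', cell (davis G) (n + 1) k' = cell (davis G) (n + 1) k := ⟨k, rfl⟩
    have h5 : v' (cell (davis G) (n + 1) k) = (v h.choose).1 := dif_pos h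
    rw [h5, cell_inj _ _ h.choose_spec]
  have hv0 : ∀ x, (davis G).deg x ≠ n + 1 → v' x = 0 := by
    intro x hx
    refine dif_neg ?_
    rintro ⟨k, rfl⟩
    exact hx (cell_deg _ _ k)
  have hFV : FV K (canL : K →* NG K) (n + 1) v' := by
    refine ⟨hv0, fun x h g g' hg => ?_, ?_⟩
    · by_cases hx : (davis G).deg x = n + 1
      · obtain ⟨k, rfl⟩ := exists_cell _ hx
        have h5 : g' = i h * g := Subtype.ext hg
        rw [hv1, h5]
        exact (v k).2.eq h g
      · rw [hv0 x hx]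
        exact (zero_mul _).symm
    · have h5 : ∀ k, ∃ T : Finset (th G).ker, ∀ g, (v k).1 g ≠ 0 → ∃ h : K, ∃ x ∈ T, g = i h * x :=
        fun k => (v k).2.fin
      choose T hT using h5
      refine ⟨Finset.univ.biUnion T, fun x g hg => ?_⟩
      by_cases hx : (davis G).deg x = n + 1
      · obtain ⟨k, rfl⟩ := exists_cell _ hx
        rw [hv1] at hg
        obtain ⟨h, y, hy, e⟩ := hT k g hg
        exact ⟨h, y, Finset.mem_biUnion.2 ⟨k, Finset.mem_univ k, hy⟩, congrArg Subtype.val e⟩
      · exact absurd (congrFun (hv0 x hx) g) hg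
  have hcyc : mulD v' = 0 := by
    funext y g
    by_cases hy : (davis G).deg y = n
    · obtain ⟨l, rfl⟩ := exists_cell _ hy
      have h5 := congrFun (congrArg Subtype.val (hv l)) g
      rw [Submodule.coe_sum, Finset.sum_apply] at h5
      refine Eq.trans ?_ h5
      unfold mulD
      rw [← sum_cell (davis G) (n + 1)]
      · refine Finset.sum_congr rfl fun k _ => ?_
        rw [act_apply, hv1, d_apply]
      · intro x hx
        rw [hv0 x hx]
        simp
    · refine Finset.sum_eq_zero fun x _ => ?_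
      by_cases hx : (davis G).deg x = n + 1
      · have h5 : (davis G).D x y = 0 := by
          by_contra h5
          have := (davis G).D_deg x y h5
          omega
        rw [h5]
        simp
      · rw [hv0 x hx]
        simp
  obtain ⟨s, hs, e, he, hse⟩ := H v' hFV hcyc
  refine ⟨s, hs, fun m => ⟨e (cell (davis G) (n + 1 + 1) m), ?_⟩, fun k => ?_⟩
  · refine ⟨fun h g => he.eqK _ h g _ rfl, ?_⟩
    obtain ⟨T, hT⟩ := he.fin
    refine ⟨T, fun g hg => ?_⟩
    obtain ⟨h, x, hx, e1⟩ := hT _ g hg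
    exact ⟨h, x, hx, Subtype.ext e1⟩
  · apply Subtype.ext
    funext g
    rw [Submodule.coe_sum, Finset.sum_apply]
    have h5 := congrFun (congrFun hse (cell (davis G) (n + 1) k)) g
    have h6 : s * v' (cell (davis G) (n + 1) k) g = (s • v k).1 g := by
      rw [hv1]
      rfl
    refine Eq.trans ?_ (h5.trans h6)
    unfold mulD
    rw [← sum_cell (davis G) (n + 1 + 1)]
    · refine Finset.sum_congr rfl fun m _ => ?_
      rw [act_apply, d_apply]
    · intro x hx
      rw [he.deg x hx]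
      simp

/-- The torsion form of the main theorem. -/
theorem tors_leray {V : Type} [Fintype V] [LinearOrder V] (G : SimpleGraph V) {d : ℕ}
    (hL : ∀ (A : Set V) (i : ℕ), d < i → HomZero G A i) (K : Subgroup (W (oct G))) (hK : K ≤ (th (oct G)).ker)
    (i : ℕ) (hi : d < i) : ∀ m : VN831.homN K i, ∃ s : NG K, Nz s ∧ s • m = 0 := by
  classical
  obtain ⟨n, rfl⟩ : ∃ n, i = n + 1 := ⟨i - 1, by omega⟩
  refine final_tors (res (dac len) CB.conv) (V ×ₗ Bool) (oct G) K n hK fun v hv hv0 => ?_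
  obtain ⟨U, hU, ι, hloc⟩ := Pool.Agent.RK.LocEx.loc_exists (vn_NG (G := K))
  have htf : ∀ (k : K) (n : ℕ), 0 < n → k ^ n = 1 → k = 1 := by
    intro k m hm hk
    apply Subtype.ext
    exact tf (V ×ₗ Bool) (oct G) k.1 (hK k.2) m hm (by
      have := congrArg Subtype.val hk
      simpa using this)
  obtain ⟨h2, hinv⟩ := ru K U ι hloc htf
  obtain ⟨u, hu⟩ : ∃ u : K →* U, ∀ h, u h = ι (canL h) := ⟨(ι : NG K →* U).comp canL, fun h => rfl⟩
  have hRg : Rg K u := ⟨htf, h2, fun h hh => by rw [hu]; exact hinv h hh⟩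
  let φ : ℝ →+* U := ι.comp ((algebraMap ℂ (NG K)).comp (algebraMap ℝ ℂ))
  letI : Module ℝ U := Module.compHom U φ
  haveI : IsScalarTower ℝ U U := ⟨fun r x y => by
    show φ r * x * y = φ r * (x * y)
    rw [mul_assoc]⟩
  have hH : Hv (oct G) Set.univ (InM K u Set.univ ⊥) (n + 1) :=
    exact_cv hRg (leray_hom hL _ _ (dis sp_inv (sp_reg hRg)) (n + 1) hi)
  obtain ⟨Ψ, p1, p2, p3, p4, p5, p6⟩ := CB.conv (V ×ₗ Bool) (oct G) K U u hK
  have hv' : FV K u (n + 1) (fun i g => ι (v i g)) := by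
    refine ⟨fun i hi => ?_, fun i h g g' hg => ?_, ?_⟩
    · funext g
      rw [hv.deg i hi]
      exact map_zero ι
    · rw [hv.eqK i h g g' hg, map_mul, hu]
    · obtain ⟨S, hS⟩ := hv.fin
      refine ⟨S, fun i g hg => hS i g fun h0 => hg (by rw [h0, map_zero])⟩
  have hz : bdf (oct G) (Ψ (fun i g => ι (v i g))) = 0 := by
    rw [← p5 (n + 1) _ hv', mulD_map, hv0]
    have h1 : Ψ 0 = 0 := by
      have := p4 0 0
      rw [add_zero] at this
      exact (left_eq_add.1 this)
    have h3 : (fun (i : (davis (oct G)).ι) (g : (th (oct G)).ker) =>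
        ι ((0 : (davis (oct G)).ι → (th (oct G)).ker → NG K) i g)) = 0 := by
      funext i g
      exact map_zero ι
    rw [h3, h1]
  obtain ⟨e', he', hbe'⟩ := hH _ (p1 (n + 1) _ hv') hz
  obtain ⟨e2, he2, rfl⟩ := p2 (n + 2) e' he'
  rw [← p5 (n + 2) e2 he2] at hbe'
  have hD2 := p3 hbe'
  -- clear the denominators
  obtain ⟨S, hS⟩ := he2.fin
  obtain ⟨s, hs, hx⟩ := common_denominator hloc (fun a b ha hb => Pool.Agent.RK.Nz.nz_mul a b ha hb)
    (Finset.univ ×ˢ S : Finset ((davis (oct G)).ι × (th (oct G)).ker)) (fun a => e2 a.1 a.2)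
  have hall : ∀ i g, ∃ x : NG K, ι s * e2 i g = ι x := by
    intro i g
    by_cases h0 : e2 i g = 0
    · exact ⟨0, by rw [h0, mul_zero, map_zero]⟩
    · obtain ⟨h, x, hxS, hgx⟩ := hS i g h0
      obtain ⟨y, hy⟩ := hx (i, x) (Finset.mem_product.2 ⟨Finset.mem_univ _, hxS⟩)
      refine ⟨y * canL h⁻¹, ?_⟩
      rw [he2.eqK i h x g hgx, ← mul_assoc, hy, map_mul, hu]
  choose e he using hall
  refine ⟨s, hs, e, ⟨fun i hi => ?_, fun i h g g' hg => ?_, ⟨S, fun i g hg => hS i g fun h0 => hg ?_⟩⟩, ?_⟩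
  · funext g
    apply hloc.inj
    rw [← he, he2.deg i hi]
    simp
  · apply hloc.inj
    rw [← he, he2.eqK i h g g' hg, ← mul_assoc, he, map_mul, hu]
  · apply hloc.inj
    rw [← he, h0, mul_zero, map_zero]
  · have h3 : mulD (fun i g => ι (e i g)) = fun i g => ι (s * v i g) := by
      have h4 : (fun i g => ι (e i g)) = fun i g => ι s * e2 i g := by
        funext i g
        rw [he]
      rw [h4, mulD_mul, hD2]
      funext i g
      rw [map_mul]
    rw [mulD_map] at h3
    funext i g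
    apply hloc.inj
    exact congrFun (congrFun h3 i) g

theorem hasL2_leray_tors {V : Type} [Fintype V] [LinearOrder V] (G : SimpleGraph V) {d : ℕ}
    (hL : ∀ (A : Set V) (i : ℕ), d < i → HomZero G A i) (K : Subgroup (W (oct G))) (hK : K ≤ (th (oct G)).ker)
    (i : ℕ) (hi : d < i) :
    ∀ m : ((V7N.bcF (canL : K →* NG K)).leftDerived i).obj (V7N.trivG K), ∃ s : NG K, Nz s ∧ s • m = 0 :=
  tors_leray G hL K hK i hi

end Pool.Agent.V5helper74.LR
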